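import Pool.Agent.Lib.MP_47914d_nt.Hk.Spec
import Pool.Agent.Lib.MP_47914d_nt.InjFull

section
/-!
MEAS1: a transcendence measure from the theorem over Liouville fields (MP_47914d_nt).
-/
set_option autoImplicit false

open Complex Filter Topology Polynomial Finset

namespace Pool.Agent.Lib.MP_47914d_nt.Hk

lemma AlgT.mono {θ x : ℂ} {D E : ℕ} (h : AlgT θ x D) (hDE : D ≤ E) : AlgT θ x E := by
  obtain ⟨f, ⟨i0, j0, hi, hj, hij⟩, h2, h3⟩ := h
  let g : ℕ → ℕ → ℤ := fun i j => if i ≤ D ∧ j ≤ D then f i j else 0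
  have hg : ∀ i j, i ≤ D → j ≤ D → g i j = f i j := fun i j h1 h2 => if_pos ⟨h1, h2⟩
  have hg' : ∀ i j, ¬ (i ≤ D ∧ j ≤ D) → g i j = 0 := fun i j h1 => if_neg h1
  refine ⟨g, ⟨i0, j0, hi.trans hDE, hj.trans hDE, by rw [hg i0 j0 hi hj]; exact hij⟩, ?_, ?_⟩
  · intro i j
    by_cases hc : i ≤ D ∧ j ≤ D
    · rw [hg i j hc.1 hc.2]
      exact (h2 i j).trans (Real.exp_le_exp.mpr (by exact_mod_cast hDE))
    · rw [hg' i j hc]
      simp only [Int.cast_zero, abs_zero]; positivity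
  · rw [← h3]
    symm
    have hsub : range (D + 1) ⊆ range (E + 1) := range_subset_range.2 (by omega)
    refine Eq.trans ?_ (Finset.sum_subset hsub ?_)
    · refine Finset.sum_congr rfl fun i hi => ?_
      rw [mem_range] at hi
      refine Eq.trans ?_ (Finset.sum_subset hsub ?_)
      · refine Finset.sum_congr rfl fun j hj => ?_
        rw [mem_range] at hj
        rw [hg i j (by omega) (by omega)]
      · intro j _ hj
        rw [mem_range] at hj
        rw [hg' i j (by omega)]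
        simp
    · intro i _ hi
      rw [mem_range] at hi
      refine Finset.sum_eq_zero fun j _ => ?_
      rw [hg' i j (by omega)]
      simp

/-- The exponent `(i, j)`. -/
noncomputable def fin2 (i j : ℕ) : Fin 2 →₀ ℕ := Finsupp.single 0 i + Finsupp.single 1 j

lemma fin2_zero (i j : ℕ) : fin2 i j 0 = i := by simp [fin2]

lemma fin2_one (i j : ℕ) : fin2 i j 1 = j := by simp [fin2]

lemma fin2_eta (m : Fin 2 →₀ ℕ) : fin2 (m 0) (m 1) = m := by
  ext k
  fin_cases k
  · exact fin2_zero _ _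
  · exact fin2_one _ _

lemma aeval_fin2 (P : MvPolynomial (Fin 2) ℤ) (D : ℕ) (hD : P.totalDegree ≤ D) (x y : ℂ) :
    MvPolynomial.aeval ![x, y] P =
      ∑ i ∈ range (D + 1), ∑ j ∈ range (D + 1), ((P.coeff (fin2 i j) : ℤ) : ℂ) * x ^ i * y ^ j := by
  classical
  set g : (Fin 2 →₀ ℕ) → ℂ := fun m => ((P.coeff m : ℤ) : ℂ) * x ^ m 0 * y ^ m 1 with hg
  have h1 : MvPolynomial.aeval ![x, y] P = ∑ m ∈ P.support, g m := by
    rw [MvPolynomial.aeval_def, MvPolynomial.eval₂_eq']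
    refine Finset.sum_congr rfl fun m _ => ?_
    rw [Fin.prod_univ_two]
    simp [hg, mul_assoc]
  have h2 : ∑ i ∈ range (D + 1), ∑ j ∈ range (D + 1), ((P.coeff (fin2 i j) : ℤ) : ℂ) * x ^ i * y ^ j =
      ∑ p ∈ range (D + 1) ×ˢ range (D + 1), g (fin2 p.1 p.2) := by
    rw [Finset.sum_product]
    refine Finset.sum_congr rfl fun i _ => Finset.sum_congr rfl fun j _ => ?_
    simp only [hg, fin2_zero, fin2_one]
  have hinj : Set.InjOn (fun p : ℕ × ℕ => fin2 p.1 p.2)
      ((range (D + 1) ×ˢ range (D + 1) : Finset (ℕ × ℕ)) : Set (ℕ × ℕ)) := by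
    rintro ⟨i, j⟩ _ ⟨k, l⟩ _ h
    simp only at h
    have e0 := DFunLike.congr_fun h 0
    have e1 := DFunLike.congr_fun h 1
    rw [fin2_zero, fin2_zero] at e0
    rw [fin2_one, fin2_one] at e1
    rw [e0, e1]
  rw [h1, h2, ← Finset.sum_image (f := g) hinj]
  refine Finset.sum_subset ?_ ?_
  · intro m hm
    rw [Finset.mem_image]
    have hs := L3.sum_le_totalDegree hm
    rw [Fin.sum_univ_two] at hs
    refine ⟨(m 0, m 1), ?_, fin2_eta m⟩
    rw [Finset.mem_product, mem_range, mem_range]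
    constructor
    · show m 0 < D + 1
      omega
    · show m 1 < D + 1
      omega
  · intro m _ hm
    have : P.coeff m = 0 := by
      rw [MvPolynomial.mem_support_iff, not_not] at hm
      exact hm
    simp [hg, this]

lemma abs_coeff_le_cSum {ι : Type*} (P : MvPolynomial ι ℤ) (m : ι →₀ ℕ) :
    |((P.coeff m : ℤ) : ℝ)| ≤ (L3.cSum P : ℝ) := by
  by_cases hm : m ∈ P.support
  · have h1 : (P.coeff m).natAbs ≤ L3.cSum P :=
      Finset.single_le_sum (f := fun m => (P.coeff m).natAbs) (fun _ _ => Nat.zero_le _) hm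
    have h2 : |((P.coeff m : ℤ) : ℝ)| = ((P.coeff m).natAbs : ℝ) := by
      rw [← Int.cast_abs, Int.abs_eq_natAbs]; simp
    rw [h2]
    exact_mod_cast h1
  · rw [MvPolynomial.mem_support_iff, not_not] at hm
    rw [hm]
    simp

/-- A polynomial relation gives `AlgT`. -/
lemma algT_of_mv {θ x : ℂ} {D : ℕ} (P : MvPolynomial (Fin 2) ℤ) (hP : P ≠ 0)
    (hdeg : P.totalDegree ≤ D) (hsum : (L3.cSum P : ℝ) ≤ Real.exp D)
    (h : MvPolynomial.aeval ![x, θ] P = 0) : AlgT θ x D := by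
  refine ⟨fun i j => P.coeff (fin2 i j), ?_, fun i j => (abs_coeff_le_cSum P _).trans hsum, ?_⟩
  · obtain ⟨m, hm⟩ := MvPolynomial.ne_zero_iff.1 hP
    have hs := L3.sum_le_totalDegree (MvPolynomial.mem_support_iff.2 hm)
    rw [Fin.sum_univ_two] at hs
    refine ⟨m 0, m 1, by omega, by omega, ?_⟩
    show MvPolynomial.coeff (fin2 (m 0) (m 1)) P ≠ 0
    rw [fin2_eta]
    exact hm
  · rw [← aeval_fin2 P D hdeg]
    exact h

lemma algT_self (θ : ℂ) : AlgT θ θ 1 := by
  refine ⟨fun i j => if i = 1 ∧ j = 0 then 1 else if i = 0 ∧ j = 1 then -1 else 0,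
    ⟨1, 0, le_rfl, by omega, by simp⟩, ?_, ?_⟩
  · intro i j
    have h1 : (1 : ℝ) ≤ Real.exp ((1 : ℕ) : ℝ) := Real.one_le_exp (by norm_num)
    have h0 : (0 : ℝ) ≤ Real.exp ((1 : ℕ) : ℝ) := by positivity
    by_cases h2 : i = 1 ∧ j = 0
    · simp only [h2, and_self, if_true]; simpa using h1
    · by_cases h3 : i = 0 ∧ j = 1
      · simp only [h3, and_self, if_true]
        simpa using h1
      · simp only [h2, h3, if_false]; simpa using h0
  · simp [Finset.sum_range_succ]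

/-- Numbers algebraic over `ℚ` are algebraic over `ℚ(θ)`. -/
lemma algT_of_algB {θ x : ℂ} {D : ℕ} (h : Sn.AlgB x D) : AlgT θ x D := by
  obtain ⟨F, h0, h1, h2, h3⟩ := h
  refine ⟨fun i j => if j = 0 then F.coeff i else 0, ⟨F.natDegree, 0, h2, Nat.zero_le _, ?_⟩, ?_, ?_⟩
  · simpa using h0
  · intro i j
    by_cases hj : j = 0
    · simp only [hj, if_true]; exact h3 i
    · simp only [hj, if_false, Int.cast_zero, abs_zero]; positivity
  · rw [Polynomial.aeval_eq_sum_range' (n := D + 1) (by omega)] at h1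
    rw [← h1]
    refine Finset.sum_congr rfl fun i _ => ?_
    rw [Finset.sum_range_succ']
    simp

section measure

variable {α : ℂ}

/-- The one point family. -/
lemma fam_ne (z : Fin 1 → ℂ) : ∀ i k : Fin 1, i ≠ k → ¬ ∃ a b c d : ℚ, 0 < a * d - b * c ∧
    z k * ((c : ℂ) * z i + (d : ℂ)) = (a : ℂ) * z i + (b : ℂ) := by
  intro i k hik
  exact absurd (Subsingleton.elim i k) hik

lemma exists_theta (hα : 0 < α.im)
    (hcm : ¬ ∃ a b c : ℤ, (a ≠ 0 ∨ b ≠ 0 ∨ c ≠ 0) ∧
      (a : ℂ) * α ^ 2 + (b : ℂ) * α + (c : ℂ) = 0) :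
    ∃ i : Fin 1 ⊕ Fin 1, Transcendental ℚ (ptf (fun _ : Fin 1 => α) i) := by
  obtain ⟨w, hw⟩ := Sn.main_all (n := 1) (N := 0) one_pos (fun _ => α) (fun _ => hα)
    (fun _ => hcm) (fam_ne _) (fun i => i.elim0) (algebraicIndependent_empty_type) (fun i => i.elim0)
    (fun A H₀ => ⟨H₀, le_rfl, fun i => i.elim0, fun i => i.elim0⟩)
  exact ⟨w 0, hw.transcendental 0⟩

/-- In transcendence degree one the generator is not well approximable. -/
lemma not_liouville (hα : 0 < α.im)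
    (hcm : ¬ ∃ a b c : ℤ, (a ≠ 0 ∨ b ≠ 0 ∨ c ≠ 0) ∧
      (a : ℂ) * α ^ 2 + (b : ℂ) * α + (c : ℂ) = 0)
    (hdep : ¬ AlgebraicIndependent ℚ ![α, Jc α]) (i : Fin 1 ⊕ Fin 1)
    (ht : Transcendental ℚ (ptf (fun _ : Fin 1 => α) i)) :
    ∃ A H₀ : ℕ, ∀ H : ℕ, H₀ ≤ H → ∀ ξ : ℂ, Sn.AlgB ξ H →
      Real.exp (-(H : ℝ) ^ A) ≤ ‖ptf (fun _ : Fin 1 => α) i - ξ‖ := by
  by_contra hcon
  push Not at hcon
  obtain ⟨w, hw⟩ := Sn.main_all (n := 1) (N := 1) one_pos (fun _ => α) (fun _ => hα)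
    (fun _ => hcm) (fam_ne _) (fun _ => ptf (fun _ : Fin 1 => α) i)
    (algebraicIndependent_unique_type_iff.2 ht)
    (fun _ => isAlgebraic_algebraMap (⟨_, Algebra.subset_adjoin ⟨i, rfl⟩⟩ :
      Algebra.adjoin ℚ (Set.range (ptf (fun _ : Fin 1 => α)))))
    (fun A H₀ => by
      obtain ⟨H, hH, ξ, hξ, hlt⟩ := hcon A H₀
      exact ⟨H, hH, fun _ => ξ, fun _ => ⟨hξ, hlt⟩⟩)
  have hw' : AlgebraicIndependent ℚ (fun m : Fin 2 => ptf (fun _ : Fin 1 => α) (w m)) := hw
  have hinj : w (0 : Fin 2) ≠ w (1 : Fin 2) := by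
    intro h
    have h1 := hw'.injective (a₁ := 0) (a₂ := 1) (by rw [h])
    exact absurd h1 (by decide)
  apply hdep
  rcases h0 : w (0 : Fin 2) with a | a <;> rcases h1 : w (1 : Fin 2) with b | b
  · exact absurd (by rw [h0, h1, Subsingleton.elim a b]) hinj
  · have e : (![α, Jc α] : Fin 2 → ℂ) = fun m : Fin 2 => ptf (fun _ : Fin 1 => α) (w m) := by
      funext m
      fin_cases m
      · show α = ptf _ (w 0)
        rw [h0]; rfl
      · show Jc α = ptf _ (w 1)
        rw [h1]; rfl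
    rw [e]; exact hw'
  · have e : (![α, Jc α] : Fin 2 → ℂ) =
        fun m : Fin 2 => ptf (fun _ : Fin 1 => α) (w (Equiv.swap 0 1 m)) := by
      funext m
      fin_cases m
      · show α = ptf _ (w (Equiv.swap 0 1 (0 : Fin 2)))
        rw [Equiv.swap_apply_left, h1]; rfl
      · show Jc α = ptf _ (w (Equiv.swap 0 1 (1 : Fin 2)))
        rw [Equiv.swap_apply_right, h0]; rfl
    rw [e]
    exact hw'.comp _ (Equiv.swap (0 : Fin 2) 1).injective
  · exact absurd (by rw [h0, h1, Subsingleton.elim a b]) hinj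

/-- From approximation by algebraic numbers to a transcendence measure. -/
lemma meas_of {θ : ℂ} {A H₀ : ℕ} (h : ∀ H : ℕ, H₀ ≤ H → ∀ ξ : ℂ, Sn.AlgB ξ H →
    Real.exp (-(H : ℝ) ^ A) ≤ ‖θ - ξ‖) : Meas θ := by
  refine ⟨1 + A + A * (H₀ + 1), fun D hD g hg hdeg hcoef => ?_⟩
  have hDr : (2 : ℝ) ≤ D := by exact_mod_cast hD
  have hD1 : (1 : ℝ) ≤ D := by linarith
  set K : ℕ := D * (H₀ + 1) with hK
  have hKD : D ≤ K := Nat.le_mul_of_pos_right _ (Nat.succ_pos _)
  have hKH : H₀ ≤ K := by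
    calc H₀ ≤ H₀ + 1 := Nat.le_succ _
      _ ≤ D * (H₀ + 1) := Nat.le_mul_of_pos_left _ (by omega)
  have hroots : ∀ r ∈ g.aroots ℂ, Real.exp (-(K : ℝ) ^ A) ≤ ‖θ - r‖ := by
    intro r hr
    apply h K hKH r
    refine ⟨g, hg, (Polynomial.mem_aroots.1 hr).2, hdeg.trans hKD, fun i => (hcoef i).trans ?_⟩
    exact Real.exp_le_exp.mpr (by exact_mod_cast hKD)
  have hprod : aeval θ g = (g.leadingCoeff : ℂ) * ((g.aroots ℂ).map (fun r => θ - r)).prod := by
    have hs : (g.map (algebraMap ℤ ℂ)).Splits := IsAlgClosed.splits _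
    have h1 := hs.eq_prod_roots
    have h2 : aeval θ g = (g.map (algebraMap ℤ ℂ)).eval θ := by
      rw [Polynomial.eval_map_algebraMap]
    rw [h2, h1, Polynomial.eval_mul, Polynomial.eval_C, Polynomial.eval_multiset_prod,
      Multiset.map_map]
    have hinj : Function.Injective (algebraMap ℤ ℂ) := RingHom.injective_int _
    rw [Polynomial.leadingCoeff_map_of_injective hinj]
    simp [Polynomial.aroots]
  have hcard : Multiset.card (g.aroots ℂ) ≤ D := by
    refine (Polynomial.card_roots' _).trans (Polynomial.natDegree_map_le.trans hdeg)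
  have hlow : ∀ s : Multiset ℂ, (∀ r ∈ s, Real.exp (-(K : ℝ) ^ A) ≤ ‖θ - r‖) →
      Real.exp (-((Multiset.card s : ℝ) * (K : ℝ) ^ A)) ≤ ‖(s.map (fun r => θ - r)).prod‖ := by
    intro s
    induction s using Multiset.induction_on with
    | empty => intro _; simp
    | cons r s ih =>
      intro hs
      have h1 := ih fun r hr => hs r (Multiset.mem_cons_of_mem hr)
      have h2 := hs r (Multiset.mem_cons_self r s)
      rw [Multiset.map_cons, Multiset.prod_cons, norm_mul, Multiset.card_cons]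
      have e : Real.exp (-(((Multiset.card s + 1 : ℕ) : ℝ) * (K : ℝ) ^ A)) =
          Real.exp (-(K : ℝ) ^ A) * Real.exp (-((Multiset.card s : ℝ) * (K : ℝ) ^ A)) := by
        rw [← Real.exp_add]; congr 1; push_cast; ring
      rw [e]
      exact mul_le_mul h2 h1 (by positivity) (norm_nonneg _)
  have h5 := hlow _ hroots
  have hlc : 1 ≤ ‖(g.leadingCoeff : ℂ)‖ := by
    have h1 : g.leadingCoeff ≠ 0 := Polynomial.leadingCoeff_ne_zero.2 hg
    have h2 : (1 : ℤ) ≤ |g.leadingCoeff| := Int.one_le_abs h1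
    rw [Complex.norm_intCast]
    exact_mod_cast h2
  rw [hprod, norm_mul]
  calc Real.exp (-(D : ℝ) ^ (1 + A + A * (H₀ + 1)))
      ≤ Real.exp (-((Multiset.card (g.aroots ℂ) : ℝ) * (K : ℝ) ^ A)) := by
        apply Real.exp_le_exp.mpr
        apply neg_le_neg
        have e1 : ((Multiset.card (g.aroots ℂ) : ℕ) : ℝ) ≤ D := by exact_mod_cast hcard
        have e2 : ((H₀ + 1 : ℕ) : ℝ) ≤ (D : ℝ) ^ (H₀ + 1) := by
          have : H₀ + 1 ≤ D ^ (H₀ + 1) :=
            (Nat.lt_two_pow_self).le.trans (Nat.pow_le_pow_left hD _)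
          exact_mod_cast this
        have e3 : (K : ℝ) ≤ D * (D : ℝ) ^ (H₀ + 1) := by
          rw [hK]; push_cast at e2 ⊢
          exact mul_le_mul_of_nonneg_left e2 (by linarith)
        calc ((Multiset.card (g.aroots ℂ) : ℕ) : ℝ) * (K : ℝ) ^ A
            ≤ D * (D * (D : ℝ) ^ (H₀ + 1)) ^ A := by gcongr
          _ = (D : ℝ) ^ (1 + A + A * (H₀ + 1)) := by
            rw [mul_pow, ← pow_mul, pow_add, pow_add, pow_one, Nat.mul_comm (H₀ + 1) A]; ring
    _ ≤ ‖((g.aroots ℂ).map (fun r => θ - r)).prod‖ := h5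
    _ ≤ _ := le_mul_of_one_le_left (norm_nonneg _) hlc

/-- Dependence of two numbers in terms of an integral polynomial. -/
lemma exists_rel {x y : ℂ} (h : ¬ AlgebraicIndependent ℚ ![x, y]) :
    ∃ P : MvPolynomial (Fin 2) ℤ, P ≠ 0 ∧ MvPolynomial.aeval ![x, y] P = 0 := by
  by_contra hcon
  push Not at hcon
  exact h (algebraicIndependent_of_int _ hcon)

lemma exists_algT {x θ : ℂ} (h : ¬ AlgebraicIndependent ℚ ![x, θ]) : ∃ D, AlgT θ x D := by
  obtain ⟨P, hP, h0⟩ := exists_rel h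
  refine ⟨P.totalDegree + L3.cSum P, algT_of_mv P hP (Nat.le_add_right _ _) ?_ h0⟩
  have h1 := Real.add_one_le_exp (((P.totalDegree + L3.cSum P : ℕ)) : ℝ)
  push_cast at h1 ⊢
  have h2 : (0 : ℝ) ≤ P.totalDegree := Nat.cast_nonneg _
  linarith

lemma not_indep_swap {x y : ℂ} (h : ¬ AlgebraicIndependent ℚ ![x, y]) :
    ¬ AlgebraicIndependent ℚ ![y, x] := by
  intro h1
  apply h
  have h2 := h1.comp _ (Equiv.swap (0 : Fin 2) 1).injective
  convert h2 using 1
  funext m
  fin_cases m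
  · show x = (![y, x] : Fin 2 → ℂ) (Equiv.swap 0 1 (0 : Fin 2))
    rw [Equiv.swap_apply_left]; rfl
  · show y = (![y, x] : Fin 2 → ℂ) (Equiv.swap 0 1 (1 : Fin 2))
    rw [Equiv.swap_apply_right]; rfl

end measure

theorem specMeas1 : SpecMeas1 := by
  intro α hα hcm hdep
  obtain ⟨i, hi⟩ := exists_theta hα hcm
  obtain ⟨A, H₀, hA⟩ := not_liouville hα hcm hdep i hi
  have hM := meas_of hA
  rcases i with i | i
  · change Transcendental ℚ α at hi
    change Meas α at hM
    obtain ⟨D, hD⟩ := exists_algT (not_indep_swap hdep)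
    exact ⟨α, Or.inl rfl, hi, hM, D + 1, (algT_self α).mono (by omega), hD.mono (by omega)⟩
  · change Transcendental ℚ (Jc α) at hi
    change Meas (Jc α) at hM
    obtain ⟨D, hD⟩ := exists_algT hdep
    exact ⟨Jc α, Or.inr rfl, hi, hM, D + 1, hD.mono (by omega), (algT_self _).mono (by omega)⟩

end Pool.Agent.Lib.MP_47914d_nt.Hk
end

section
/-!
Sums of absolute values of coefficients (MP_47914d_nt).
-/
set_option autoImplicit false

open Polynomial Finset

namespace Pool.Agent.Lib.MP_47914d_nt.Hk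

open L3

section

variable {σ : Type*}

lemma cSum_eq {P : MvPolynomial σ ℤ} {s : Finset (σ →₀ ℕ)} (h : P.support ⊆ s) :
    cSum P = ∑ m ∈ s, (P.coeff m).natAbs := by
  rw [cSum]
  refine Finset.sum_subset h fun m _ hm => ?_
  rw [MvPolynomial.notMem_support_iff.mp hm]
  simp

lemma cSum_add_le (P Q : MvPolynomial σ ℤ) : cSum (P + Q) ≤ cSum P + cSum Q := by
  classical
  rw [cSum_eq (P := P) (s := P.support ∪ Q.support) Finset.subset_union_left,
    cSum_eq (P := Q) (s := P.support ∪ Q.support) Finset.subset_union_right,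
    cSum_eq (P := P + Q) (s := P.support ∪ Q.support) MvPolynomial.support_add,
    ← Finset.sum_add_distrib]
  refine Finset.sum_le_sum fun m _ => ?_
  rw [MvPolynomial.coeff_add]
  exact Int.natAbs_add_le _ _

lemma cSum_neg (P : MvPolynomial σ ℤ) : cSum (-P) = cSum P := by
  rw [cSum, cSum, MvPolynomial.support_neg]
  refine Finset.sum_congr rfl fun m _ => ?_
  rw [MvPolynomial.coeff_neg, Int.natAbs_neg]

lemma cSum_sub_le (P Q : MvPolynomial σ ℤ) : cSum (P - Q) ≤ cSum P + cSum Q := by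
  rw [sub_eq_add_neg]
  refine (cSum_add_le _ _).trans ?_
  rw [cSum_neg]

lemma cSum_zero : cSum (0 : MvPolynomial σ ℤ) = 0 := by simp [cSum]

lemma cSum_sum_le {ι : Type*} (s : Finset ι) (F : ι → MvPolynomial σ ℤ) :
    cSum (∑ i ∈ s, F i) ≤ ∑ i ∈ s, cSum (F i) := by
  classical
  induction s using Finset.induction_on with
  | empty => simp [cSum_zero]
  | insert a s ha ih =>
    rw [Finset.sum_insert ha, Finset.sum_insert ha]
    exact (cSum_add_le _ _).trans (Nat.add_le_add_left ih _)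

lemma cSum_monomial_le (m : σ →₀ ℕ) (c : ℤ) : cSum (MvPolynomial.monomial m c) ≤ c.natAbs := by
  classical
  rw [cSum_eq (s := {m}) MvPolynomial.support_monomial_subset]
  simp

lemma cSum_mul_le (P Q : MvPolynomial σ ℤ) : cSum (P * Q) ≤ cSum P * cSum Q := by
  have h1 : P * Q = ∑ m ∈ P.support, ∑ n ∈ Q.support,
      MvPolynomial.monomial (m + n) (P.coeff m * Q.coeff n) := MvPolynomial.mul_def
  have h2 : cSum P * cSum Q = ∑ m ∈ P.support, ∑ n ∈ Q.support,
      (P.coeff m).natAbs * (Q.coeff n).natAbs := by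
    rw [cSum, cSum, Finset.sum_mul_sum]
  rw [h1, h2]
  refine (cSum_sum_le _ _).trans (Finset.sum_le_sum fun m _ => ?_)
  refine (cSum_sum_le _ _).trans (Finset.sum_le_sum fun n _ => ?_)
  refine (cSum_monomial_le _ _).trans (le_of_eq ?_)
  rw [Int.natAbs_mul]

lemma cSum_C_le (c : ℤ) : cSum (MvPolynomial.C c : MvPolynomial σ ℤ) ≤ c.natAbs :=
  cSum_monomial_le 0 c

lemma cSum_X_le (i : σ) : cSum (MvPolynomial.X i : MvPolynomial σ ℤ) ≤ 1 :=
  cSum_monomial_le _ 1

lemma cSum_rename {τ : Type*} (f : σ → τ) (hf : Function.Injective f) (P : MvPolynomial σ ℤ) :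
    cSum (MvPolynomial.rename f P) = cSum P := by
  classical
  rw [cSum, MvPolynomial.support_rename_of_injective hf, cSum,
    Finset.sum_image (Finsupp.mapDomain_injective hf).injOn]
  refine Finset.sum_congr rfl fun m _ => ?_
  rw [MvPolynomial.coeff_rename_mapDomain f hf]

end

end Pool.Agent.Lib.MP_47914d_nt.Hk
end

section
/-!
ASM: the modular Schanuel conjecture near Hecke orbits (MP_47914d_nt).
-/
set_option autoImplicit false

open Complex Filter Topology Polynomial Finset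

namespace Pool.Agent.Lib.MP_47914d_nt.Hk

/-! ### Special points are algebraic over `ℚ(θ)` -/

/-- The relation between a point and its image. -/
noncomputable def relP (a b c d : ℤ) : MvPolynomial (Option (Fin 1)) ℤ :=
  MvPolynomial.X none * (MvPolynomial.C c * MvPolynomial.X (some 0) + MvPolynomial.C d) -
    (MvPolynomial.C a * MvPolynomial.X (some 0) + MvPolynomial.C b)

lemma relP_deg (a b c d : ℤ) : (relP a b c d).totalDegree ≤ 2 := by
  have hl : ∀ x y : ℤ, (MvPolynomial.C x * MvPolynomial.X (some 0) + MvPolynomial.C y :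
      MvPolynomial (Option (Fin 1)) ℤ).totalDegree ≤ 1 := by
    intro x y
    refine (MvPolynomial.totalDegree_add _ _).trans (max_le ?_ ?_)
    · refine (MvPolynomial.totalDegree_mul _ _).trans ?_
      rw [MvPolynomial.totalDegree_C, MvPolynomial.totalDegree_X]
    · rw [MvPolynomial.totalDegree_C]; omega
  refine (MvPolynomial.totalDegree_sub _ _).trans (max_le ?_ ((hl a b).trans (by omega)))
  refine (MvPolynomial.totalDegree_mul _ _).trans ?_
  have h1 : (MvPolynomial.X none : MvPolynomial (Option (Fin 1)) ℤ).totalDegree = 1 :=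
    MvPolynomial.totalDegree_X _
  have h2 := hl c d
  omega

lemma relP_cSum (a b c d : ℤ) {H : ℕ} (ha : |a| ≤ H) (hb : |b| ≤ H) (hc : |c| ≤ H)
    (hd : |d| ≤ H) : L3.cSum (relP a b c d) ≤ 4 * H := by
  have hl : ∀ x y : ℤ, |x| ≤ H → |y| ≤ H →
      L3.cSum (MvPolynomial.C x * MvPolynomial.X (some 0) + MvPolynomial.C y :
      MvPolynomial (Option (Fin 1)) ℤ) ≤ 2 * H := by
    intro x y hx hy
    have hx' : x.natAbs ≤ H := by
      rw [Int.abs_eq_natAbs] at hx; exact_mod_cast hx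
    have hy' : y.natAbs ≤ H := by
      rw [Int.abs_eq_natAbs] at hy; exact_mod_cast hy
    refine (cSum_add_le _ _).trans ?_
    have h1 := cSum_mul_le (MvPolynomial.C x : MvPolynomial (Option (Fin 1)) ℤ)
      (MvPolynomial.X (some 0))
    have h2 := cSum_C_le (σ := Option (Fin 1)) x
    have h3 := cSum_X_le (σ := Option (Fin 1)) (some 0)
    have h4 := cSum_C_le (σ := Option (Fin 1)) y
    have h5 : L3.cSum (MvPolynomial.C x : MvPolynomial (Option (Fin 1)) ℤ) *
        L3.cSum (MvPolynomial.X (some 0) : MvPolynomial (Option (Fin 1)) ℤ) ≤ H * 1 :=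
      Nat.mul_le_mul (h2.trans hx') h3
    omega
  refine (cSum_sub_le _ _).trans ?_
  have h1 := cSum_mul_le (MvPolynomial.X none : MvPolynomial (Option (Fin 1)) ℤ)
    (MvPolynomial.C c * MvPolynomial.X (some 0) + MvPolynomial.C d)
  have h2 := cSum_X_le (σ := Option (Fin 1)) none
  have h3 := hl c d hc hd
  have h4 := hl a b ha hb
  have h5 := Nat.mul_le_mul h2 h3
  omega

lemma relP_eval (a b c d : ℤ) (y α : ℂ) :
    MvPolynomial.aeval (fun o : Option (Fin 1) => o.elim y (fun _ => α)) (relP a b c d) =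
      y * ((c : ℂ) * α + d) - ((a : ℂ) * α + b) := by
  simp [relP]

lemma den_ne {α : ℂ} (hα : 0 < α.im) {a b c d : ℤ} (hdet : 0 < a * d - b * c) :
    (c : ℂ) * α + d ≠ 0 := by
  intro h
  have h1 := congrArg Complex.im h
  simp only [Complex.add_im, Complex.mul_im, Complex.intCast_re, Complex.intCast_im,
    Complex.zero_im, zero_mul, add_zero] at h1
  have hc : c = 0 := by
    have : (c : ℝ) = 0 := by
      rcases mul_eq_zero.1 h1 with h2 | h2
      · exact h2
      · exact absurd h2 hα.ne'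
    exact_mod_cast this
  rw [hc] at h hdet
  simp only [Int.cast_zero, zero_mul, zero_add, Int.cast_eq_zero] at h
  rw [h] at hdet
  simp at hdet

lemma four_le {H : ℕ} (hH : 2 ≤ H) : 4 * H ≤ H ^ 3 := by
  calc 4 * H = 2 ^ 2 * H := by norm_num
    _ ≤ H ^ 2 * H := Nat.mul_le_mul_right _ (Nat.pow_le_pow_left hH 2)
    _ = H ^ 3 := by ring

lemma self_le_pow {H : ℕ} (hH : 2 ≤ H) (D : ℕ) : D ≤ H ^ D :=
  (Nat.lt_two_pow_self).le.trans (Nat.pow_le_pow_left hH _)

theorem special_algT (hR : SpecRootT) (hM : SpecModP) (hC : SpecCMB) {α θ : ℂ}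
    (hα : 0 < α.im) (hθ : Transcendental ℚ θ) {D : ℕ} (h1 : AlgT θ α D) (h2 : AlgT θ (Jc α) D) :
    ∃ c : ℕ, ∀ H : ℕ, 2 ≤ H → ∀ κ : ℂ, 0 < κ.im → SpecialPt α κ H →
      AlgT θ κ (H ^ c) ∧ AlgT θ (Jc κ) (H ^ c) := by
  obtain ⟨cR, hcR⟩ := hR 1
  obtain ⟨cM, hcM⟩ := hM
  obtain ⟨cC, hcC⟩ := hC
  obtain ⟨e, he⟩ : ∃ e : ℕ, e = D + cM + 3 := ⟨_, rfl⟩
  refine ⟨e * cR + cC, fun H hH κ hκ hs => ?_⟩
  have hH0 : 0 < H := by omega
  rcases hs with hs | ⟨a, b, c, d, ha, hb, hc, hd, hdet, hk⟩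
  · obtain ⟨h3, h4⟩ := hcC H hH κ hκ hs
    have h5 : H ^ cC ≤ H ^ (e * cR + cC) := Nat.pow_le_pow_right hH0 (by omega)
    exact ⟨(algT_of_algB h3).mono h5, (algT_of_algB h4).mono h5⟩
  · have hHe : 2 ≤ H ^ e := hH.trans (Nat.le_self_pow (by omega) H)
    have hDe : D ≤ H ^ e := (self_le_pow hH D).trans (Nat.pow_le_pow_right hH0 (by omega))
    have hle : (H ^ e) ^ cR ≤ H ^ (e * cR + cC) := by
      rw [← pow_mul]
      exact Nat.pow_le_pow_right hH0 (by omega)
    have hden := den_ne hα hdet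
    constructor
    · refine (hcR θ hθ (H ^ e) hHe (fun _ => α) (fun _ => h1.mono hDe) (relP a b c d) ?_ ?_ κ ?_
        ?_).mono hle
      · exact (relP_deg a b c d).trans hHe
      · have h3 := relP_cSum a b c d ha hb hc hd
        have h4 : 4 * H ≤ H ^ e := (four_le hH).trans (Nat.pow_le_pow_right hH0 (by omega))
        have h5 : ((L3.cSum (relP a b c d) : ℕ) : ℝ) ≤ ((H ^ e : ℕ) : ℝ) := by
          exact_mod_cast h3.trans h4
        have h6 := Real.add_one_le_exp (((H ^ e : ℕ)) : ℝ)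
        linarith
      · rw [relP_eval, hk, sub_self]
      · refine ⟨κ + 1, ?_⟩
        rw [relP_eval]
        have : (κ + 1) * ((c : ℂ) * α + d) - ((a : ℂ) * α + b) = (c : ℂ) * α + d := by
          rw [add_mul, hk]; ring
        rw [this]
        exact hden
    · obtain ⟨P, hP1, hP2, hP3, hP4⟩ := hcM H hH a b c d ha hb hc hd hdet
      have hkd : ((a : ℂ) * α + b) / ((c : ℂ) * α + d) = κ := by
        rw [div_eq_iff hden, hk]
      set Q : MvPolynomial (Option (Fin 1)) ℤ :=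
        MvPolynomial.rename (![none, some 0] : Fin 2 → Option (Fin 1)) P with hQ
      have hinj : Function.Injective (![none, some 0] : Fin 2 → Option (Fin 1)) := by
        intro i j hij
        fin_cases i <;> fin_cases j <;> simp_all
      have hQe : ∀ y : ℂ, MvPolynomial.aeval
          (fun o : Option (Fin 1) => o.elim y (fun _ => Jc α)) Q =
          MvPolynomial.aeval ![y, Jc α] P := by
        intro y
        rw [hQ, MvPolynomial.aeval_rename]
        congr 2
        funext i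
        fin_cases i <;> rfl
      refine (hcR θ hθ (H ^ e) hHe (fun _ => Jc α) (fun _ => h2.mono hDe) Q ?_ ?_ (Jc κ) ?_
        ?_).mono hle
      · refine (MvPolynomial.totalDegree_rename_le _ _).trans (hP1.trans ?_)
        exact Nat.pow_le_pow_right hH0 (by omega)
      · rw [hQ, cSum_rename _ hinj]
        refine hP2.trans (Real.exp_le_exp.mpr ?_)
        push_cast
        exact pow_le_pow_right₀ (by exact_mod_cast hH0) (by omega)
      · rw [hQe, ← hkd]
        exact hP4 α hα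
      · obtain ⟨u, hu⟩ := hP3 (Jc α)
        exact ⟨u, by rw [hQe]; exact hu⟩

/-! ### Persistence of relations -/

/-- Approximations by special points. -/
def GoodS {n : ℕ} (α : ℂ) (z : Fin n → ℂ) (A H : ℕ) (κ : Fin n → ℂ) : Prop :=
  ∀ i, SpecialPt α (κ i) H ∧ ‖κ i - z i‖ < Real.exp (-(H : ℝ) ^ A)

lemma closeS {n : ℕ} (α : ℂ) (z : Fin n → ℂ) {V : Set (Fin n → ℂ)} (hV : V ∈ 𝓝 z) :
    ∀ᶠ H : ℕ in atTop, ∀ κ, GoodS α z 1 H κ → κ ∈ V := by
  obtain ⟨ε, hε, hball⟩ := Metric.mem_nhds_iff.mp hV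
  filter_upwards [exp_small (s := 1) one_pos hε] with H hH κ hκ
  apply hball
  rw [Metric.mem_ball, dist_pi_lt_iff hε]
  intro i
  rw [Complex.dist_eq]
  have h1 := (hκ i).2
  rw [Real.rpow_one] at hH
  rw [pow_one] at h1
  exact h1.trans hH

lemma GoodS.mono {n : ℕ} {α : ℂ} {z : Fin n → ℂ} {A B H : ℕ} {κ : Fin n → ℂ}
    (h : GoodS α z B H κ) (hAB : A ≤ B) (hH : 1 ≤ H) : GoodS α z A H κ := by
  intro i
  refine ⟨(h i).1, (h i).2.trans_le (Real.exp_le_exp.mpr (neg_le_neg ?_))⟩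
  exact pow_le_pow_right₀ (by exact_mod_cast hH) hAB

/-- An ultrafilter of very good approximations. -/
lemma exists_ultraS {n : ℕ} (α : ℂ) (z : Fin n → ℂ)
    (happ : ∀ A H₀ : ℕ, ∃ H : ℕ, H₀ ≤ H ∧ ∃ κ : Fin n → ℂ, GoodS α z A H κ) :
    ∃ 𝒰 : Ultrafilter (Fin n → ℂ), ∀ (A : ℕ) (p : (Fin n → ℂ) → Prop),
      (∀ᶠ H : ℕ in atTop, ∀ κ, GoodS α z A H κ → p κ) → ∀ᶠ x in (𝒰 : Filter (Fin n → ℂ)), p x := by
  choose N hN κ hκ using fun m => happ m (m + 1)
  refine ⟨(Filter.hyperfilter ℕ).map κ, fun A p hp => ?_⟩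
  have h1 : Tendsto N atTop atTop :=
    tendsto_atTop_mono (fun m => (Nat.le_succ m).trans (hN m)) tendsto_id
  have h2 : ∀ᶠ m : ℕ in atTop, p (κ m) := by
    filter_upwards [h1.eventually hp, eventually_ge_atTop A] with m hm hAm
    exact hm _ ((hκ m).mono hAm (by have := hN m; omega))
  have h3 : ∀ᶠ m in (Filter.hyperfilter ℕ : Filter ℕ), p (κ m) := by
    apply Filter.hyperfilter_le_cofinite
    rw [Nat.cofinite_eq_atTop]
    exact h2
  exact h3

lemma diffS {n : ℕ} (θ : ℂ) {z : Fin n → ℂ} (him : ∀ i, 0 < (z i).im)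
    (P : MvPolynomial (Option (Fin n ⊕ Fin n)) ℤ) :
    DifferentiableAt ℂ (fun x : Fin n → ℂ =>
      MvPolynomial.aeval (fun o : Option (Fin n ⊕ Fin n) => o.elim θ (ptf x)) P) z := by
  have hJa : ∀ i, DifferentiableAt ℂ (fun x : Fin n → ℂ => Jc (x i)) z := by
    intro i
    have h1 : DifferentiableAt ℂ Jc (z i) := (specJ.holo).differentiableAt
      ((isOpen_lt continuous_const Complex.continuous_im).mem_nhds (him i))
    have h2 : DifferentiableAt ℂ (fun x : Fin n → ℂ => x i) z := differentiableAt_apply i z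
    exact DifferentiableAt.fun_comp' z h1 h2
  induction P using MvPolynomial.induction_on with
  | C a => simp only [MvPolynomial.aeval_C]; exact differentiableAt_const _
  | add p q hp hq => simp only [map_add]; exact hp.add hq
  | mul_X p i hp =>
    simp only [map_mul, MvPolynomial.aeval_X]
    refine hp.mul ?_
    rcases i with _ | i | i
    · exact differentiableAt_const θ
    · exact differentiableAt_apply i z
    · exact hJa i

lemma growS (K : ℝ) (B : ℕ) : ∀ᶠ H : ℕ in atTop, K + (H : ℝ) ^ B < (H : ℝ) ^ (B + 1) := by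
  obtain ⟨m, hm⟩ := exists_nat_gt (|K| + 1)
  filter_upwards [eventually_ge_atTop (m + 2)] with H hH
  have h1 : (m : ℝ) + 2 ≤ H := by exact_mod_cast hH
  have hK : K ≤ |K| := le_abs_self K
  have hK0 : 0 ≤ |K| := abs_nonneg K
  have h2 : 1 ≤ (H : ℝ) ^ B := one_le_pow₀ (by linarith)
  rw [pow_succ]
  nlinarith

/-- Relations over `ℚ(θ)` persist at very good approximations. -/
theorem vanishS (hR : SpecRootT) (hL : SpecLiouT) (hM : SpecModP) (hC : SpecCMB) {α θ : ℂ}
    (hα : 0 < α.im) (hθ : Transcendental ℚ θ) (hme : Meas θ) {D : ℕ} (h1 : AlgT θ α D)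
    (h2 : AlgT θ (Jc α) D) {n : ℕ} (z : Fin n → ℂ) (him : ∀ i, 0 < (z i).im)
    (P : MvPolynomial (Option (Fin n ⊕ Fin n)) ℤ)
    (hP : MvPolynomial.aeval (fun o : Option (Fin n ⊕ Fin n) => o.elim θ (ptf z)) P = 0) :
    ∃ A : ℕ, ∀ᶠ H : ℕ in atTop, ∀ κ, GoodS α z A H κ →
      MvPolynomial.aeval (fun o : Option (Fin n ⊕ Fin n) => o.elim θ (ptf κ)) P = 0 := by
  obtain ⟨c, hc⟩ := special_algT hR hM hC hα hθ h1 h2
  have e : Option (Fin n ⊕ Fin n) ≃ Fin (Fintype.card (Option (Fin n ⊕ Fin n))) :=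
    Fintype.equivFin _
  obtain ⟨cL, hcL⟩ := hL θ hθ hme _ (MvPolynomial.rename e P)
  have hU : {x : Fin n → ℂ | ∀ i, 0 < (x i).im} ∈ 𝓝 z := by
    have : ∀ᶠ x in 𝓝 z, ∀ i, 0 < (x i).im := by
      rw [Filter.eventually_all]
      intro i
      exact (continuous_apply i).continuousAt.eventually
        ((isOpen_lt continuous_const Complex.continuous_im).mem_nhds (him i))
    exact this
  obtain ⟨L, hLip⟩ := ((diffS θ him P).isBigO_sub).bound
  simp only [hP, sub_zero] at hLip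
  refine ⟨(c + 1) * cL + 1, ?_⟩
  filter_upwards [closeS α z hLip, closeS α z hU, growS (Real.log (|L| + 1)) ((c + 1) * cL),
    eventually_ge_atTop 2] with H h3 h4 hgr hH κ hκ
  have hH1 : 1 ≤ H := by omega
  have hκ1 : GoodS α z 1 H κ := hκ.mono (by omega) hH1
  have hLκ : ‖MvPolynomial.aeval (fun o : Option (Fin n ⊕ Fin n) => o.elim θ (ptf κ)) P‖ ≤
      L * ‖κ - z‖ := h3 κ hκ1
  have hUκ : ∀ i, 0 < (κ i).im := h4 κ hκ1
  have hHc : 2 ≤ H ^ (c + 1) := hH.trans (Nat.le_self_pow (by omega) H)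
  have hcc : H ^ c ≤ H ^ (c + 1) := Nat.pow_le_pow_right hH1 (by omega)
  have hall : ∀ o : Option (Fin n ⊕ Fin n), AlgT θ (o.elim θ (ptf κ)) (H ^ (c + 1)) := by
    rintro (_ | i | i)
    · exact (algT_self θ).mono (by omega)
    · exact ((hc H hH _ (hUκ i) (hκ i).1).1).mono hcc
    · exact ((hc H hH _ (hUκ i) (hκ i).1).2).mono hcc
  have hren : MvPolynomial.aeval
      (fun k => (fun o : Option (Fin n ⊕ Fin n) => o.elim θ (ptf κ)) (e.symm k))
      (MvPolynomial.rename e P) =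
      MvPolynomial.aeval (fun o : Option (Fin n ⊕ Fin n) => o.elim θ (ptf κ)) P := by
    rw [MvPolynomial.aeval_rename]
    congr 2
    funext o
    simp
  rcases hcL (H ^ (c + 1)) hHc
    (fun k => (fun o : Option (Fin n ⊕ Fin n) => o.elim θ (ptf κ)) (e.symm k))
    (fun k => hall (e.symm k)) with h5 | h5
  · rw [hren] at h5
    exact h5
  · rw [hren] at h5
    exfalso
    have hnorm : ‖κ - z‖ ≤ Real.exp (-(H : ℝ) ^ ((c + 1) * cL + 1)) := by
      rw [pi_norm_le_iff_of_nonneg (Real.exp_pos _).le]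
      intro i
      exact (hκ i).2.le
    have h6 : Real.exp (-((H : ℝ) ^ ((c + 1) * cL))) ≤
        (|L| + 1) * Real.exp (-(H : ℝ) ^ ((c + 1) * cL + 1)) := by
      have h7 : (((H ^ (c + 1) : ℕ) : ℝ)) ^ cL = (H : ℝ) ^ ((c + 1) * cL) := by
        push_cast; rw [← pow_mul]
      rw [h7] at h5
      refine h5.trans (hLκ.trans ?_)
      have h8 : L * ‖κ - z‖ ≤ (|L| + 1) * ‖κ - z‖ :=
        mul_le_mul_of_nonneg_right (by linarith [le_abs_self L]) (norm_nonneg _)
      exact h8.trans (mul_le_mul_of_nonneg_left hnorm (by positivity))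
    have hL1 : 0 < |L| + 1 := by positivity
    rw [← Real.exp_log hL1, ← Real.exp_add, Real.exp_le_exp] at h6
    linarith

/-! ### The main theorem -/

/-- A transcendental number can be treated as a variable. -/
lemma inj_theta {θ : ℂ} (hθ : Transcendental ℚ θ) {S : Type*} {P : MvPolynomial (Option S) ℤ}
    (hP : P ≠ 0) : MvPolynomial.aeval (fun o : Option S => o.elim (MvPolynomial.C θ)
      (fun s => MvPolynomial.X s : S → MvPolynomial S ℂ)) P ≠ 0 := by
  have hinj : Function.Injective (Polynomial.aeval θ : ℤ[X] →ₐ[ℤ] ℂ) := by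
    rw [← transcendental_iff_injective]
    exact fun h => hθ ((IsFractionRing.isAlgebraic_iff ℤ ℚ ℂ).1 h)
  intro h
  apply hP
  have h1 : MvPolynomial.map (Polynomial.aeval θ : ℤ[X] →ₐ[ℤ] ℂ).toRingHom
      (MvPolynomial.optionEquivRight ℤ S P) = 0 := by
    rw [← h]
    have : ((MvPolynomial.map (Polynomial.aeval θ : ℤ[X] →ₐ[ℤ] ℂ).toRingHom).comp
        (MvPolynomial.optionEquivRight ℤ S : _ ≃ₐ[ℤ] _).toRingEquiv.toRingHom) =
        (MvPolynomial.aeval (fun o : Option S => o.elim (MvPolynomial.C θ)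
          (fun s => MvPolynomial.X s : S → MvPolynomial S ℂ)) :
          MvPolynomial (Option S) ℤ →ₐ[ℤ] _).toRingHom := by
      apply MvPolynomial.ringHom_ext
      · intro r
        simp
      · intro o
        cases o with
        | none => simp [MvPolynomial.optionEquivRight_X_none]
        | some k => simp [MvPolynomial.optionEquivRight_X_some]
    exact RingHom.congr_fun this P
  have h2 := (MvPolynomial.map_injective _ hinj) (h1.trans (map_zero _).symm)
  exact (MvPolynomial.optionEquivRight ℤ S).injective (by rw [h2, map_zero])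

lemma eval_theta (θ : ℂ) {S : Type*} (v : S → ℂ) (P : MvPolynomial (Option S) ℤ) :
    MvPolynomial.eval v (MvPolynomial.aeval (fun o : Option S => o.elim (MvPolynomial.C θ)
      (fun s => MvPolynomial.X s : S → MvPolynomial S ℂ)) P) =
    MvPolynomial.aeval (fun o : Option S => o.elim θ v) P := by
  have hcomp : (MvPolynomial.eval v).comp
      (MvPolynomial.aeval (fun o : Option S => o.elim (MvPolynomial.C θ)
        (fun s => MvPolynomial.X s : S → MvPolynomial S ℂ)) :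
          MvPolynomial (Option S) ℤ →ₐ[ℤ] _).toRingHom =
      (MvPolynomial.aeval (fun o : Option S => o.elim θ v) :
          MvPolynomial (Option S) ℤ →ₐ[ℤ] ℂ).toRingHom := by
    apply MvPolynomial.ringHom_ext
    · intro r
      simp
    · intro o
      cases o with
      | none => simp
      | some k => simp
  exact RingHom.congr_fun hcomp P

theorem specMain (hR : SpecRootT) (hL : SpecLiouT) (hM : SpecModP) (hC : SpecCMB)
    (hMe : SpecMeas1) : SpecMain := by
  classical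
  intro n α z hn hα him hcmα hcm hneα hne hdep happ
  obtain ⟨θ, hθα, hθ, hme, D, hD1, hD2⟩ := hMe α hα hcmα hdep
  refine ⟨θ, hθα, ?_⟩
  obtain ⟨𝒰, h𝒰⟩ := exists_ultraS α z happ
  have hle : (𝒰 : Filter (Fin n → ℂ)) ≤ 𝓝 z := by
    intro V hV
    exact h𝒰 1 _ (closeS α z hV)
  obtain ⟨F, _, _, ⟨G⟩⟩ := specArc_all n z 𝒰 hle
  have hnc : ∀ i, ∀ᶠ x in (𝒰 : Filter (Fin n → ℂ)), x i ≠ z i := by
    intro i
    apply h𝒰 1
    refine Filter.Eventually.of_forall fun H κ hκ h => ?_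
    rcases (hκ i).1 with ⟨a, b, c, h0, -, -, -, hq⟩ | ⟨a, b, c, d, -, -, -, -, hdet, hq⟩
    · rw [h] at hq
      exact hcm i ⟨a, b, c, h0, hq⟩
    · rw [h] at hq
      refine hneα i ⟨a, b, c, d, ?_, ?_⟩
      · exact_mod_cast hdet
      · push_cast
        exact hq
  obtain ⟨S, hS, hAI⟩ := ax_schanuel specJ specRam specMahler_all specExt specDer0 specGour
    specStepC_all specRicc specNoRicc_all specGauge specTwist specAut specLinkB_all specLinkC_all
    hn hle G him hnc hne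
  -- transfer of relations
  have htr : AlgebraicIndependent ℚ
      (fun o : Option (S : Set (Fin n ⊕ Fin n)) => o.elim θ (fun i => ptf z i)) := by
    apply algebraicIndependent_of_int
    intro P hP0 hP
    set Q : MvPolynomial (Option (Fin n ⊕ Fin n)) ℤ :=
      MvPolynomial.rename (Option.map Subtype.val) P with hQ
    have hQe : ∀ x : Fin n → ℂ, MvPolynomial.aeval
        (fun o : Option (Fin n ⊕ Fin n) => o.elim θ (ptf x)) Q = MvPolynomial.aeval
        (fun o : Option (S : Set (Fin n ⊕ Fin n)) => o.elim θ (fun i => ptf x i)) P := by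
      intro x
      rw [hQ, MvPolynomial.aeval_rename]
      congr 2
      funext o
      cases o <;> rfl
    obtain ⟨A, hA⟩ := vanishS hR hL hM hC hα hθ hme hD1 hD2 z him Q (by rw [hQe]; exact hP)
    have h1 := h𝒰 A _ hA
    have hPC := inj_theta hθ hP0
    apply hPC
    rw [AlgebraicIndepOn, algebraicIndependent_iff] at hAI
    apply hAI
    have e : (fun i : (S : Set (Fin n ⊕ Fin n)) =>
        Sum.elim (fun i => G.T (fun x => x i)) (fun i => G.T (fun x => Jc (x i))) (i : Fin n ⊕ Fin n)) =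
        fun i : (S : Set (Fin n ⊕ Fin n)) => G.T (fun x => ptf x i) := by
      funext i
      rcases i with ⟨i | i, hi⟩ <;> rfl
    rw [e, G.aeval_eq_zero_iff]
    filter_upwards [h1] with x hx
    rw [hQe] at hx
    rw [← hx]
    exact eval_theta θ (fun j : (S : Set (Fin n ⊕ Fin n)) => ptf x j) P
  -- choose `n + 1` elements
  obtain ⟨S', hS', hcard⟩ := Finset.exists_subset_card_eq hS
  have e : Fin (n + 1) ≃ S' := (Fintype.equivFinOfCardEq (by rw [Fintype.card_coe]; exact hcard)).symm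
  refine ⟨fun m => (e m : Fin n ⊕ Fin n), ?_⟩
  have hinj : Function.Injective
      (fun m : Fin (n + 1) => (⟨e m, hS' (e m).2⟩ : (S : Set (Fin n ⊕ Fin n)))) := by
    intro a b hab
    apply e.injective
    apply Subtype.ext
    exact congrArg (fun i : (S : Set (Fin n ⊕ Fin n)) => (i : Fin n ⊕ Fin n)) hab
  have h1 := htr.comp _ (Option.map_injective hinj)
  convert h1 using 1
  funext o
  cases o <;> rfl

end Pool.Agent.Lib.MP_47914d_nt.Hk
end

section
/-!
CMB: CM points and singular moduli have polynomial size.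
-/
set_option autoImplicit false

open Complex Filter Topology Polynomial Finset

namespace Pool.Agent.Lib.MP_47914d_nt.Hk

namespace CMB

/-- roots and leading coefficient control the coefficients -/
lemma coeff_le {F : ℤ[X]} (hF : F ≠ 0) {B : ℕ} (hB : 2 ≤ B) (hd : F.natDegree ≤ B)
    (hl : |(F.leadingCoeff : ℝ)| ≤ Real.exp B) (hr : ∀ r ∈ F.aroots ℂ, ‖r‖ ≤ Real.exp B) (i : ℕ) :
    |(F.coeff i : ℝ)| ≤ Real.exp ((B ^ 3 : ℕ) : ℝ) := by
  set G : ℂ[X] := F.map (Int.castRingHom ℂ) with hG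
  have hlc : G.leadingCoeff = (F.leadingCoeff : ℂ) := by
    rw [hG, leadingCoeff_map_of_injective (RingHom.injective_int _)]
    simp
  have hl0 : (F.leadingCoeff : ℂ) ≠ 0 := by
    rw [Ne, Int.cast_eq_zero, leadingCoeff_eq_zero]
    exact hF
  have hG0 : G ≠ 0 := by
    intro h
    rw [h, leadingCoeff_zero] at hlc
    exact hl0 hlc.symm
  set p : ℂ[X] := G * C G.leadingCoeff⁻¹ with hp
  have hpm : p.Monic := monic_mul_leadingCoeff_inv hG0
  have hpd : p.natDegree = F.natDegree := by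
    rw [hp, natDegree_mul_leadingCoeff_inv _ hG0, hG,
      natDegree_map_eq_of_injective (RingHom.injective_int _)]
  have hroots : p.roots = F.aroots ℂ := by
    have h1 : p.roots = G.roots := by
      rw [hp, mul_comm]
      apply roots_C_mul
      rw [hlc]
      exact inv_ne_zero hl0
    rw [h1]
    rfl
  have hsp : (p.map (RingHom.id ℂ)).Splits := by
    rw [Polynomial.map_id]
    exact IsAlgClosed.splits p
  have h1 := coeff_le_of_roots_le (f := RingHom.id ℂ) (B := Real.exp B) i hpm hsp (by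
    intro z hz
    rw [Polynomial.map_id, hroots] at hz
    exact hr z hz)
  rw [Polynomial.map_id, hpd] at h1
  have h2 : ‖p.coeff i‖ * |(F.leadingCoeff : ℝ)| = |(F.coeff i : ℝ)| := by
    rw [hp, coeff_mul_C, norm_mul, hlc, norm_inv]
    have e1 : ‖(F.leadingCoeff : ℂ)‖ = |(F.leadingCoeff : ℝ)| := by
      rw [Complex.norm_intCast]
    have e2 : ‖G.coeff i‖ = |(F.coeff i : ℝ)| := by
      rw [hG, coeff_map]
      simp
    have e3 : |(F.leadingCoeff : ℝ)| ≠ 0 := by
      rw [← e1, norm_ne_zero_iff]; exact hl0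
    rw [e1, e2]
    field_simp
  rw [← h2]
  have hB0 : (0 : ℝ) ≤ B := Nat.cast_nonneg _
  have hB2 : (2 : ℝ) ≤ B := by exact_mod_cast hB
  have hdB : (F.natDegree : ℝ) ≤ B := by exact_mod_cast hd
  have h3 : Real.exp B ^ (F.natDegree - i) ≤ Real.exp (B * B) := by
    rw [← Real.exp_nat_mul]
    apply Real.exp_le_exp.2
    have : ((F.natDegree - i : ℕ) : ℝ) ≤ B := by
      exact_mod_cast (Nat.sub_le _ _).trans hd
    gcongr
  have h4 : ((F.natDegree.choose i : ℕ) : ℝ) ≤ Real.exp B := by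
    have h5 : F.natDegree.choose i ≤ 2 ^ F.natDegree := Nat.choose_le_two_pow _ _
    have h6 : ((F.natDegree.choose i : ℕ) : ℝ) ≤ 2 ^ F.natDegree := by exact_mod_cast h5
    refine h6.trans ?_
    have h7 : (2 : ℝ) ≤ Real.exp 1 := by
      have := Real.add_one_le_exp (1 : ℝ)
      linarith
    calc (2 : ℝ) ^ F.natDegree ≤ Real.exp 1 ^ F.natDegree := by gcongr
      _ = Real.exp F.natDegree := by rw [← Real.exp_nat_mul, mul_one]
      _ ≤ Real.exp B := Real.exp_le_exp.2 hdB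
  calc ‖p.coeff i‖ * |(F.leadingCoeff : ℝ)|
      ≤ (Real.exp (B * B) * Real.exp B) * Real.exp B := by
        refine mul_le_mul (h1.trans ?_) hl (abs_nonneg _) (by positivity)
        exact mul_le_mul h3 h4 (Nat.cast_nonneg _) (Real.exp_pos _).le
    _ = Real.exp (B * B + B + B) := by rw [Real.exp_add, Real.exp_add]
    _ ≤ Real.exp ((B ^ 3 : ℕ) : ℝ) := by
        apply Real.exp_le_exp.2
        push_cast
        nlinarith [mul_nonneg hB0 hB0]

lemma algB_mono {x : ℂ} {D E : ℕ} (h : Sn.AlgB x D) (hDE : D ≤ E) : Sn.AlgB x E := by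
  obtain ⟨F, h1, h2, h3, h4⟩ := h
  refine ⟨F, h1, h2, h3.trans hDE, fun i => (h4 i).trans (Real.exp_le_exp.2 ?_)⟩
  exact_mod_cast hDE

lemma algB_of_algData {x : ℂ} {B : ℕ} (hB : 2 ≤ B) (h : AlgData x B) : Sn.AlgB x (B ^ 3) := by
  obtain ⟨F, hF, hx, hd, hl, hr⟩ := h
  refine ⟨F, hF, hx, hd.trans ?_, coeff_le hF hB hd hl hr⟩
  calc B = B ^ 1 := (pow_one B).symm
    _ ≤ B ^ 3 := Nat.pow_le_pow_right (by omega) (by omega)

lemma algB_of_quad {κ : ℂ} {H : ℕ} (hH : 2 ≤ H) (h : QuadHeight κ H) : Sn.AlgB κ H := by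
  obtain ⟨a, b, c, h0, ha, hb, hc, hk⟩ := h
  set F : ℤ[X] := C a * X ^ 2 + C b * X + C c with hF
  have hcoef : ∀ i, F.coeff i = (if i = 2 then a else 0) + (if i = 1 then b else 0) +
      (if i = 0 then c else 0) := by
    intro i
    simp only [hF, coeff_add, coeff_C_mul, coeff_X_pow, coeff_X, coeff_C, mul_ite, mul_one,
      mul_zero, eq_comm (a := 1)]
  refine ⟨F, ?_, ?_, ?_, ?_⟩
  · intro h
    have e0 := hcoef 0
    have e1 := hcoef 1
    have e2 := hcoef 2
    rw [h] at e0 e1 e2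
    simp at e0 e1 e2
    omega
  · rw [hF]
    simp only [map_add, map_mul, aeval_C, aeval_X, map_pow]
    simpa using hk
  · refine le_trans ?_ hH
    rw [hF]
    compute_degree
  · intro i
    have hHexp : (H : ℝ) ≤ Real.exp H := by
      have := Real.add_one_le_exp (H : ℝ)
      linarith
    refine le_trans ?_ hHexp
    have h5 : |F.coeff i| ≤ H := by
      rw [hcoef]
      by_cases h2 : i = 2
      · subst h2; simpa using ha
      by_cases h1 : i = 1
      · subst h1; simpa using hb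
      by_cases h0 : i = 0
      · subst h0; simpa using hc
      · simp [h2, h1, h0]
    exact_mod_cast h5

end CMB

open _root_.Pool.Agent.Lib.MP_47914d_nt.Hk.CMB in
theorem specCMB : SpecCMB := by
  obtain ⟨C, hC⟩ := specCM_all
  refine ⟨(C + 1) * 3, fun H hH κ hκ hq => ?_⟩
  have hH1 : 1 ≤ H := by omega
  refine ⟨algB_mono (algB_of_quad hH hq) ?_, ?_⟩
  · calc H = H ^ 1 := (pow_one H).symm
      _ ≤ H ^ ((C + 1) * 3) := Nat.pow_le_pow_right hH1 (by omega)
  · have h1 := hC H hH κ hκ hq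
    -- pass to an exponent which is at least one
    have h2 : AlgData (Jc κ) (H ^ (C + 1)) := by
      obtain ⟨F, hF, hx, hd, hl, hr⟩ := h1
      have hle : H ^ C ≤ H ^ (C + 1) := Nat.pow_le_pow_right hH1 (by omega)
      have hle' : Real.exp ((H ^ C : ℕ) : ℝ) ≤ Real.exp ((H ^ (C + 1) : ℕ) : ℝ) :=
        Real.exp_le_exp.2 (by exact_mod_cast hle)
      exact ⟨F, hF, hx, hd.trans hle, hl.trans hle', fun r hr' => (hr r hr').trans hle'⟩
    have h3 : 2 ≤ H ^ (C + 1) := by
      calc 2 ≤ H := hH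
        _ = H ^ 1 := (pow_one H).symm
        _ ≤ H ^ (C + 1) := Nat.pow_le_pow_right hH1 (by omega)
    have h4 := algB_of_algData h3 h2
    rwa [← pow_mul] at h4

end Pool.Agent.Lib.MP_47914d_nt.Hk
end

section
/-!
LIOUT: Liouville inequality over a field with a transcendence measure.
-/
set_option autoImplicit false

open Complex Filter Topology Polynomial Finset

namespace Pool.Agent.Lib.MP_47914d_nt.Hk

namespace LiouM

lemma algT_mono {θ x : ℂ} {D E : ℕ} (h : AlgT θ x D) (hDE : D ≤ E) : AlgT θ x E := by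
  obtain ⟨f, ⟨i, j, hi, hj, hij⟩, hf, hs⟩ := h
  refine ⟨fun i j => if i ≤ D ∧ j ≤ D then f i j else 0,
    ⟨i, j, hi.trans hDE, hj.trans hDE, ?_⟩, ?_, ?_⟩
  · simp only [hi, hj, and_self, if_true]
    exact hij
  · intro i j
    show |(((if i ≤ D ∧ j ≤ D then f i j else 0 : ℤ)) : ℝ)| ≤ Real.exp E
    split_ifs
    · exact (hf i j).trans (Real.exp_le_exp.2 (by exact_mod_cast hDE))
    · simp only [Int.cast_zero, abs_zero]
      positivity
  · rw [← hs]
    have hsub : range (D + 1) ⊆ range (E + 1) := range_subset_range.2 (by omega)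
    have e1 : ∑ i ∈ range (E + 1), ∑ j ∈ range (E + 1),
        (((if i ≤ D ∧ j ≤ D then f i j else 0 : ℤ)) : ℂ) * x ^ i * θ ^ j =
        ∑ i ∈ range (D + 1), ∑ j ∈ range (E + 1),
        (((if i ≤ D ∧ j ≤ D then f i j else 0 : ℤ)) : ℂ) * x ^ i * θ ^ j := by
      symm
      refine sum_subset hsub fun i _ hi => ?_
      have hi' : ¬ i ≤ D := fun h => hi (mem_range.2 (by omega))
      refine sum_eq_zero fun j _ => ?_
      simp [hi']
    rw [e1]
    refine sum_congr rfl fun i hi => ?_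
    have hi' : i ≤ D := by rw [mem_range] at hi; omega
    have e2 : ∑ j ∈ range (E + 1),
        (((if i ≤ D ∧ j ≤ D then f i j else 0 : ℤ)) : ℂ) * x ^ i * θ ^ j =
        ∑ j ∈ range (D + 1),
        (((if i ≤ D ∧ j ≤ D then f i j else 0 : ℤ)) : ℂ) * x ^ i * θ ^ j := by
      symm
      refine sum_subset hsub fun j _ hj => ?_
      have hj' : ¬ j ≤ D := fun h => hj (mem_range.2 (by omega))
      simp [hj']
    rw [e2]
    refine sum_congr rfl fun j hj => ?_
    have hj' : j ≤ D := by rw [mem_range] at hj; omega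
    simp [hi', hj']

/-- the lower bound from the transcendence measure -/
lemma lower {θ : ℂ} (hθ : Transcendental ℚ θ) {c : ℕ}
    (hm : ∀ D : ℕ, 2 ≤ D → ∀ g : ℤ[X], g ≠ 0 → g.natDegree ≤ D →
      (∀ i, |(g.coeff i : ℝ)| ≤ Real.exp D) → Real.exp (-(D : ℝ) ^ c) ≤ ‖aeval θ g‖) :
    ∃ c' : ℕ, ∀ E : ℕ, 2 ≤ E → ∀ x : ℂ, AlgT θ x E → x ≠ 0 →
      Real.exp (-(E : ℝ) ^ c') ≤ ‖x‖ := by
  obtain ⟨t, ht⟩ := exists_nat_ge (‖θ‖)
  refine ⟨(t + 4) + (c + 1), fun E hE x hx hx0 => ?_⟩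
  obtain ⟨f, ⟨i₁, j₁, hi₁, hj₁, hij₁⟩, hf, hs⟩ := hx
  have hE0 : (0 : ℝ) ≤ E := Nat.cast_nonneg _
  have hE2 : (2 : ℝ) ≤ E := by exact_mod_cast hE
  -- the coefficients as polynomials
  let g : ℕ → ℤ[X] := fun i => ∑ j ∈ range (E + 1), C (f i j) * X ^ j
  have hgc : ∀ i k, (g i).coeff k = if k ≤ E then f i k else 0 := by
    intro i k
    show (∑ j ∈ range (E + 1), C (f i j) * X ^ j).coeff k = _
    rw [finsetSum_coeff]
    simp only [coeff_C_mul, coeff_X_pow, mul_ite, mul_one, mul_zero]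
    rw [sum_ite_eq]
    simp
  have hgθ : ∀ i, aeval θ (g i) = ∑ j ∈ range (E + 1), (f i j : ℂ) * θ ^ j := by
    intro i
    show aeval θ (∑ j ∈ range (E + 1), C (f i j) * X ^ j) = _
    rw [map_sum]
    refine sum_congr rfl fun j _ => ?_
    rw [map_mul, aeval_C, map_pow, aeval_X]
    simp
  have hrel : ∑ i ∈ range (E + 1), aeval θ (g i) * x ^ i = 0 := by
    rw [← hs]
    refine sum_congr rfl fun i _ => ?_
    rw [hgθ, sum_mul]
    refine sum_congr rfl fun j _ => ?_
    ring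
  have hgb : ∀ i k, |((g i).coeff k : ℝ)| ≤ Real.exp E := by
    intro i k
    rw [hgc]
    split_ifs
    · exact hf i k
    · simp only [Int.cast_zero, abs_zero]; positivity
  have hgd : ∀ i, (g i).natDegree ≤ E := by
    intro i
    rw [natDegree_le_iff_coeff_eq_zero]
    intro k hk
    rw [hgc, if_neg (by omega)]
  -- upper bound of the values
  have hup : ∀ i, ‖aeval θ (g i)‖ ≤ Real.exp ((t + 2) * E) := by
    intro i
    rw [hgθ]
    have hterm : ∀ j ∈ range (E + 1), ‖(f i j : ℂ) * θ ^ j‖ ≤ Real.exp E * Real.exp (t * E) := by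
      intro j hj
      have hj' : j ≤ E := by rw [mem_range] at hj; omega
      rw [norm_mul, norm_pow, Complex.norm_intCast]
      refine mul_le_mul (hf i j) ?_ (by positivity) (by positivity)
      have h1 : ‖θ‖ ≤ Real.exp t := by
        have := Real.add_one_le_exp (t : ℝ)
        linarith
      calc ‖θ‖ ^ j ≤ Real.exp t ^ j := pow_le_pow_left₀ (norm_nonneg _) h1 j
        _ ≤ Real.exp t ^ E := pow_le_pow_right₀ (Real.one_le_exp (Nat.cast_nonneg _)) hj'
        _ = Real.exp (t * E) := by rw [← Real.exp_nat_mul]; ring_nf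
    refine (norm_sum_le_of_le _ hterm).trans ?_
    rw [sum_const, card_range, nsmul_eq_mul]
    push_cast
    have h2 : ((E : ℝ) + 1) ≤ Real.exp E := Real.add_one_le_exp _
    calc ((E : ℝ) + 1) * (Real.exp E * Real.exp (t * E))
        ≤ Real.exp E * (Real.exp E * Real.exp (t * E)) := by gcongr
      _ = Real.exp ((t + 2) * E) := by
          rw [← Real.exp_add, ← Real.exp_add]; ring_nf
  -- the lowest nonzero coefficient
  have hex : ∃ i, i ≤ E ∧ g i ≠ 0 := by
    refine ⟨i₁, hi₁, fun h => hij₁ ?_⟩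
    have := hgc i₁ j₁
    rw [h, coeff_zero, if_pos hj₁] at this
    exact this.symm
  classical
  set i₀ := Nat.find hex with hi₀
  obtain ⟨hi₀E, hgi₀⟩ := Nat.find_spec hex
  have hlow : ∀ i < i₀, g i = 0 := by
    intro i hi
    by_contra h
    exact Nat.find_min hex hi ⟨by omega, h⟩
  have hθ0 : ∀ i, g i ≠ 0 → aeval θ (g i) ≠ 0 := by
    intro i hi h
    have hθZ : Transcendental ℤ θ := by
      intro halg
      exact hθ (halg.extendScalars (RingHom.injective_int (algebraMap ℤ ℚ)))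
    exact hθZ ⟨g i, hi, h⟩
  have hmeas := hm E hE (g i₀) hgi₀ (hgd _) (hgb _)
  by_cases hx1 : 1 ≤ ‖x‖
  · refine le_trans ?_ hx1
    rw [Real.exp_le_one_iff]
    have : (0 : ℝ) ≤ (E : ℝ) ^ (t + 4 + (c + 1)) := by positivity
    linarith
  push Not at hx1
  -- split the relation
  have hsplit : aeval θ (g i₀) = - ∑ i ∈ Ioc i₀ E, aeval θ (g i) * x ^ (i - i₀) := by
    have h1 : ∑ i ∈ range (E + 1), aeval θ (g i) * x ^ i =
        ∑ i ∈ Icc i₀ E, aeval θ (g i) * x ^ i := by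
      symm
      refine sum_subset (fun i hi => ?_) fun i hi hi' => ?_
      · rw [mem_Icc] at hi; rw [mem_range]; omega
      · rw [mem_Icc] at hi'
        rw [mem_range] at hi
        have : i < i₀ := by
          by_contra hc
          exact hi' ⟨by omega, by omega⟩
        rw [hlow i this, map_zero, zero_mul]
    have h2 : Icc i₀ E = insert i₀ (Ioc i₀ E) := by
      ext i
      simp only [mem_Icc, mem_insert, mem_Ioc]
      omega
    have h3 : i₀ ∉ Ioc i₀ E := by simp
    have h4 : ∑ i ∈ Ioc i₀ E, aeval θ (g i) * x ^ i =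
        x ^ i₀ * ∑ i ∈ Ioc i₀ E, aeval θ (g i) * x ^ (i - i₀) := by
      rw [mul_sum]
      refine sum_congr rfl fun i hi => ?_
      rw [mem_Ioc] at hi
      have : x ^ i = x ^ i₀ * x ^ (i - i₀) := by
        rw [← pow_add]; congr 1; omega
      rw [this]; ring
    rw [h1, h2, sum_insert h3, h4] at hrel
    have hxi : x ^ i₀ ≠ 0 := pow_ne_zero _ hx0
    have h5 : x ^ i₀ * (aeval θ (g i₀) + ∑ i ∈ Ioc i₀ E, aeval θ (g i) * x ^ (i - i₀)) = 0 := by
      rw [← hrel]; ring
    have h6 := (mul_eq_zero.1 h5).resolve_left hxi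
    exact eq_neg_of_add_eq_zero_left h6
  have hbound : ‖aeval θ (g i₀)‖ ≤ Real.exp ((t + 3) * E) * ‖x‖ := by
    rw [hsplit, norm_neg]
    have hterm : ∀ i ∈ Ioc i₀ E, ‖aeval θ (g i) * x ^ (i - i₀)‖ ≤
        Real.exp ((t + 2) * E) * ‖x‖ := by
      intro i hi
      rw [mem_Ioc] at hi
      rw [norm_mul, norm_pow]
      refine mul_le_mul (hup i) ?_ (by positivity) (by positivity)
      calc ‖x‖ ^ (i - i₀) ≤ ‖x‖ ^ 1 :=
            pow_le_pow_of_le_one (norm_nonneg _) hx1.le (by omega)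
        _ = ‖x‖ := pow_one _
    refine (norm_sum_le_of_le _ hterm).trans ?_
    rw [sum_const, Nat.card_Ioc, nsmul_eq_mul]
    have h7 : ((E - i₀ : ℕ) : ℝ) ≤ Real.exp E := by
      have h8 : ((E - i₀ : ℕ) : ℝ) ≤ E := by exact_mod_cast Nat.sub_le _ _
      have := Real.add_one_le_exp (E : ℝ)
      linarith
    calc ((E - i₀ : ℕ) : ℝ) * (Real.exp ((t + 2) * E) * ‖x‖)
        ≤ Real.exp E * (Real.exp ((t + 2) * E) * ‖x‖) := by gcongr
      _ = Real.exp ((t + 3) * E) * ‖x‖ := by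
          rw [← mul_assoc, ← Real.exp_add]; ring_nf
  have h9 : Real.exp (-(E : ℝ) ^ c) ≤ Real.exp ((t + 3) * E) * ‖x‖ := hmeas.trans hbound
  have h10 : Real.exp (-(E : ℝ) ^ c - (t + 3) * E) ≤ ‖x‖ := by
    rw [sub_eq_add_neg, Real.exp_add, Real.exp_neg ((t + 3) * (E : ℝ))]
    rw [← div_eq_mul_inv, div_le_iff₀ (Real.exp_pos _), mul_comm]
    exact h9
  refine le_trans (Real.exp_le_exp.2 ?_) h10
  have h11 : (E : ℝ) ^ c ≤ (E : ℝ) ^ (c + 1) := pow_le_pow_right₀ (by linarith) (by omega)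
  have h12 : (E : ℝ) ≤ (E : ℝ) ^ (c + 1) := by
    calc (E : ℝ) = (E : ℝ) ^ 1 := (pow_one _).symm
      _ ≤ (E : ℝ) ^ (c + 1) := pow_le_pow_right₀ (by linarith) (by omega)
  have h13 : ((t : ℝ) + 4) ≤ (E : ℝ) ^ (t + 4) := by
    have h14 : ((t + 4 : ℕ) : ℝ) ≤ (2 : ℝ) ^ (t + 4) := by
      exact_mod_cast (Nat.lt_two_pow_self (n := t + 4)).le
    push_cast at h14
    exact h14.trans (pow_le_pow_left₀ (by norm_num) hE2 _)
  have h15 : 0 ≤ (E : ℝ) ^ (c + 1) := by positivity
  rw [pow_add]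
  have ht0 : (0 : ℝ) ≤ t := Nat.cast_nonneg _
  nlinarith [mul_le_mul_of_nonneg_right h13 h15, mul_le_mul_of_nonneg_left h12 ht0]

end LiouM

open LiouM in
theorem specLiouT (hR : SpecRootT) : SpecLiouT := by
  intro θ hθ ⟨c, hm⟩ N P
  obtain ⟨c₁, hc₁⟩ := lower hθ hm
  obtain ⟨c₀, hc₀⟩ := hR N
  -- the polynomial `W - P`
  set P' : MvPolynomial (Option (Fin N)) ℤ := MvPolynomial.X none - MvPolynomial.rename some P
    with hP'
  obtain ⟨k₁, hk₁⟩ : ∃ k : ℕ, P'.totalDegree ≤ k ∧ L3.cSum P' ≤ k :=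
    ⟨max P'.totalDegree (L3.cSum P'), le_max_left _ _, le_max_right _ _⟩
  refine ⟨((k₁ + 1) * c₀ + 1) * c₁, fun H hH ξ hξ => ?_⟩
  by_cases h0 : MvPolynomial.aeval ξ P = 0
  · exact Or.inl h0
  right
  have hH1 : 1 ≤ H := by omega
  have hk : k₁ ≤ H ^ (k₁ + 1) := by
    calc k₁ ≤ 2 ^ k₁ := (Nat.lt_two_pow_self (n := k₁)).le
      _ ≤ H ^ k₁ := Nat.pow_le_pow_left hH _
      _ ≤ H ^ (k₁ + 1) := Nat.pow_le_pow_right hH1 (by omega)
  have hHle : H ≤ H ^ (k₁ + 1) := by
    calc H = H ^ 1 := (pow_one H).symm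
      _ ≤ H ^ (k₁ + 1) := Nat.pow_le_pow_right hH1 (by omega)
  have hcs : (L3.cSum P' : ℝ) ≤ Real.exp ((H ^ (k₁ + 1) : ℕ) : ℝ) := by
    have h1 : (L3.cSum P' : ℝ) ≤ ((H ^ (k₁ + 1) : ℕ) : ℝ) := by exact_mod_cast hk₁.2.trans hk
    have := Real.add_one_le_exp ((H ^ (k₁ + 1) : ℕ) : ℝ)
    linarith
  have hval : ∀ y : ℂ, MvPolynomial.aeval (fun o : Option (Fin N) => o.elim y ξ) P' =
      y - MvPolynomial.aeval ξ P := by
    intro y
    rw [hP', map_sub, MvPolynomial.aeval_X, MvPolynomial.aeval_rename]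
    rfl
  have hζ := hc₀ θ hθ (H ^ (k₁ + 1)) (hH.trans hHle) ξ (fun i => algT_mono (hξ i) hHle) P'
    (hk₁.1.trans hk) hcs (MvPolynomial.aeval ξ P) (by rw [hval, sub_self])
    ⟨MvPolynomial.aeval ξ P + 1, by rw [hval]; simp⟩
  rw [← pow_mul] at hζ
  have hζ' : AlgT θ (MvPolynomial.aeval ξ P) (H ^ ((k₁ + 1) * c₀ + 1)) :=
    algT_mono hζ (Nat.pow_le_pow_right hH1 (by omega))
  have hE : 2 ≤ H ^ ((k₁ + 1) * c₀ + 1) := by
    calc 2 ≤ H := hH
      _ = H ^ 1 := (pow_one H).symm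
      _ ≤ H ^ ((k₁ + 1) * c₀ + 1) := Nat.pow_le_pow_right hH1 (by omega)
  have h1 := hc₁ _ hE _ hζ' h0
  push_cast at h1
  rwa [← pow_mul] at h1

end Pool.Agent.Lib.MP_47914d_nt.Hk
end

section
/-!
Module MODP: modular polynomials of bounded size.
-/
set_option autoImplicit false

open UpperHalfPlane hiding I
open Complex Filter Topology Polynomial Finset
open scoped Real MatrixGroups Modular

namespace Pool.Agent.Lib.MP_47914d_nt.Hk

namespace ModP

/-! ### Sizes of integral polynomials -/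

lemma cSum_eq_of_support {ι : Type*} (P : MvPolynomial ι ℤ) (S : Finset (ι →₀ ℕ))
    (h : P.support ⊆ S) : L3.cSum P = ∑ m ∈ S, (P.coeff m).natAbs := by
  rw [L3.cSum]
  refine Finset.sum_subset h fun m _ hm => ?_
  rw [MvPolynomial.notMem_support_iff.1 hm, Int.natAbs_zero]

lemma cSum_add_le {ι : Type*} (P Q : MvPolynomial ι ℤ) :
    L3.cSum (P + Q) ≤ L3.cSum P + L3.cSum Q := by
  classical
  rw [cSum_eq_of_support (P + Q) (P.support ∪ Q.support) MvPolynomial.support_add,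
    cSum_eq_of_support P (P.support ∪ Q.support) Finset.subset_union_left,
    cSum_eq_of_support Q (P.support ∪ Q.support) Finset.subset_union_right,
    ← Finset.sum_add_distrib]
  refine Finset.sum_le_sum fun m _ => ?_
  rw [MvPolynomial.coeff_add]
  exact Int.natAbs_add_le _ _

lemma cSum_sum_le {ι κ : Type*} (s : Finset κ) (f : κ → MvPolynomial ι ℤ) :
    L3.cSum (∑ i ∈ s, f i) ≤ ∑ i ∈ s, L3.cSum (f i) := by
  classical
  induction s using Finset.induction_on with
  | empty => simp [L3.cSum]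
  | insert a s ha ih =>
    rw [Finset.sum_insert ha, Finset.sum_insert ha]
    exact (cSum_add_le _ _).trans (by omega)

lemma cSum_monomial_le {ι : Type*} (m : ι →₀ ℕ) (c : ℤ) :
    L3.cSum (MvPolynomial.monomial m c) ≤ c.natAbs := by
  classical
  rw [cSum_eq_of_support _ {m} MvPolynomial.support_monomial_subset, Finset.sum_singleton,
    MvPolynomial.coeff_monomial, if_pos rfl]

/-- The coefficients of an integral polynomial are bounded by its maximum on the unit circle. -/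
lemma coeff_le_of_circle (p : ℤ[X]) (B : ℝ) (hB : ∀ v : ℂ, ‖v‖ = 1 → ‖aeval v p‖ ≤ B) (i : ℕ) :
    |(p.coeff i : ℝ)| ≤ B := by
  have hB0 : 0 ≤ B := (norm_nonneg _).trans (hB 1 (by simp))
  set q := p.map (algebraMap ℤ ℂ) with hq
  have h1 := q.sum_sq_norm_coeff_eq_circleAverage
  have h2 : Real.circleAverage (fun θ ↦ ‖q.eval θ‖ ^ 2) 0 1 ≤ B ^ 2 := by
    refine Real.circleAverage_mono_on_of_le_circle ?_ ?_
    · refine ContinuousOn.circleIntegrable zero_le_one ?_
      exact (by fun_prop : Continuous fun θ : ℂ => ‖q.eval θ‖ ^ 2).continuousOn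
    · intro v hv
      have hv1 : ‖v‖ = 1 := by simpa using hv
      have h3 := hB v hv1
      rw [hq, eval_map_algebraMap]
      exact pow_le_pow_left₀ (norm_nonneg _) h3 2
  have h3 : ‖q.coeff i‖ ^ 2 ≤ B ^ 2 := by
    rcases eq_or_ne (q.coeff i) 0 with h0 | h0
    · rw [h0, norm_zero]
      nlinarith
    · refine le_trans ?_ (h1.trans_le h2)
      exact Finset.single_le_sum (f := fun i => ‖q.coeff i‖ ^ 2) (fun _ _ => by positivity)
        (Polynomial.mem_support_iff.2 h0)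
  have h4 : ‖q.coeff i‖ ≤ B := by
    exact (sq_le_sq₀ (norm_nonneg _) hB0).1 h3
  have h5 : ‖q.coeff i‖ = |(p.coeff i : ℝ)| := by
    rw [hq, coeff_map]
    simp
  rwa [h5] at h4

/-! ### Growth of the invariant -/

/-- Bound for the invariant in a horizontal strip. -/
lemma Jc_strip {K : ℕ}
    (hup : ∀ w : ℂ, 1 ≤ w.im → ‖Jc w - cexp (-(2 * π * Complex.I * w))‖ ≤ K)
    (hlow : ∀ w : ℂ, 1 / 2 ≤ w.im → w.im ≤ 1 → ‖Jc w‖ ≤ K) {w : ℂ} {R : ℝ} (hR : 1 ≤ R)
    (h1 : 1 / R ≤ w.im) (h2 : w.im ≤ R) : ‖Jc w‖ ≤ Real.exp (2 * π * R) + K := by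
  have hR0 : 0 < R := by linarith
  have hw : 0 < w.im := lt_of_lt_of_le (by positivity) h1
  obtain ⟨g, hg⟩ := ModularGroup.exists_smul_mem_fd (⟨w, hw⟩ : ℍ)
  set t : ℍ := g • (⟨w, hw⟩ : ℍ) with ht
  have h3 : 3 ≤ 4 * t.im ^ 2 := ModularGroup.three_le_four_mul_im_sq_of_mem_fd hg
  have htpos : 0 < t.im := t.im_pos
  have h4 : 1 / 2 ≤ t.im := by nlinarith
  have him : t.im = w.im / normSq (denom g (⟨w, hw⟩ : ℍ)) := by
    rw [ht, ModularGroup.im_smul_eq_div_normSq]
    rfl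
  have hden : denom g (⟨w, hw⟩ : ℍ) = ((g 1 0 : ℤ) : ℂ) * w + ((g 1 1 : ℤ) : ℂ) := by
    rw [ModularGroup.denom_apply]
  have hns : normSq (denom g (⟨w, hw⟩ : ℍ)) =
      ((g 1 0 : ℤ) * w.re + (g 1 1 : ℤ)) ^ 2 + ((g 1 0 : ℤ) * w.im) ^ 2 := by
    rw [hden, normSq_apply]
    simp
    ring
  have h5 : t.im ≤ R := by
    rw [him]
    by_cases hc : g 1 0 = 0
    · have hd : g 1 1 ≠ 0 := by
        intro hd
        have hdet := Matrix.det_fin_two (g : Matrix (Fin 2) (Fin 2) ℤ)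
        rw [g.2] at hdet
        have e1 : (g : Matrix (Fin 2) (Fin 2) ℤ) 1 0 = 0 := hc
        have e2 : (g : Matrix (Fin 2) (Fin 2) ℤ) 1 1 = 0 := hd
        rw [e1, e2] at hdet
        simp at hdet
      have hd1 : (1 : ℝ) ≤ ((g 1 1 : ℤ) : ℝ) ^ 2 := by
        have : (1 : ℤ) ≤ (g 1 1) ^ 2 := by
          have := Int.one_le_abs hd
          rw [← sq_abs]
          nlinarith
        exact_mod_cast this
      have h6 : (1 : ℝ) ≤ normSq (denom g (⟨w, hw⟩ : ℍ)) := by
        rw [hns, hc]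
        simpa using hd1
      rw [div_le_iff₀ (by linarith)]
      nlinarith
    · have hc1 : (1 : ℝ) ≤ ((g 1 0 : ℤ) : ℝ) ^ 2 := by
        have : (1 : ℤ) ≤ (g 1 0) ^ 2 := by
          have := Int.one_le_abs hc
          rw [← sq_abs]
          nlinarith
        exact_mod_cast this
      have h6 : w.im ^ 2 ≤ normSq (denom g (⟨w, hw⟩ : ℍ)) := by
        rw [hns, mul_pow]
        nlinarith [sq_nonneg (((g 1 0 : ℤ) : ℝ) * w.re + (g 1 1 : ℤ)), sq_nonneg w.im]
      rw [div_le_iff₀ (lt_of_lt_of_le (by positivity) h6)]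
      have h7 : 1 ≤ R * w.im := by
        rw [div_le_iff₀ hR0] at h1
        linarith
      nlinarith
  have h6 : Jc w = Jc (t : ℂ) := by
    rw [Jc_coe, ht, J_smul, Jc_of_pos hw]
  rw [h6]
  have htim : (t : ℂ).im = t.im := rfl
  rcases le_total t.im 1 with h7 | h7
  · have := hlow (t : ℂ) (by rw [htim]; exact h4) (by rw [htim]; exact h7)
    have h8 := Real.exp_pos (2 * π * R)
    linarith
  · have h8 := hup (t : ℂ) (by rw [htim]; exact h7)
    have h9 : ‖Jc (t : ℂ)‖ ≤ ‖cexp (-(2 * π * Complex.I * (t : ℂ)))‖ + K := by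
      have e : Jc (t : ℂ) = cexp (-(2 * π * Complex.I * (t : ℂ))) +
          (Jc (t : ℂ) - cexp (-(2 * π * Complex.I * (t : ℂ)))) := by ring
      rw [e]
      exact (norm_add_le _ _).trans (by linarith)
    rw [CMB.norm_q, htim] at h9
    have h10 : Real.exp (2 * π * t.im) ≤ Real.exp (2 * π * R) := by
      rw [Real.exp_le_exp]
      have := Real.pi_pos
      nlinarith
    linarith

/-- Every point of the unit circle is the value of the invariant at a point of a fixed strip. -/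
lemma exists_point (hJ : SpecJ) {K : ℕ} (hK : 1 ≤ K)
    (hup : ∀ w : ℂ, 1 ≤ w.im → ‖Jc w - cexp (-(2 * π * Complex.I * w))‖ ≤ K) {v : ℂ}
    (hv : ‖v‖ = 1) : ∃ z : ℂ, 1 / 2 ≤ z.im ∧ z.im ≤ K ∧ Jc z = v := by
  obtain ⟨z, hz, hzv⟩ := hJ.surj v
  refine ⟨z, hz, ?_, hzv⟩
  by_contra hlt
  push Not at hlt
  have hKR : (1 : ℝ) ≤ K := by exact_mod_cast hK
  have h1 := hup z (by linarith)
  have h2 : ‖cexp (-(2 * π * Complex.I * z))‖ ≤ ‖Jc z‖ + K := by
    have e : cexp (-(2 * π * Complex.I * z)) =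
        Jc z - (Jc z - cexp (-(2 * π * Complex.I * z))) := by ring
    nth_rewrite 1 [e]
    exact (norm_sub_le _ _).trans (by linarith)
  rw [CMB.norm_q, hzv, hv] at h2
  have h3 := CMB.exp_K hK
  have h4 : Real.exp (2 * π * K) ≤ Real.exp (2 * π * z.im) := by
    rw [Real.exp_le_exp]
    have := Real.pi_pos
    nlinarith
  linarith

/-! ### The modular polynomial -/

/-- The index set of the representatives. -/
abbrev Idx (N : ℕ) : Type := Σ p : {p : ℕ × ℕ // p ∈ N.divisorsAntidiagonal}, Fin p.1.2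

/-- The values at the images under the representatives. -/
noncomputable def val (N : ℕ) (z : ℂ) (s : Idx N) : ℂ :=
  Jc (((s.1.1.1 : ℂ) * z + ((s.2 : ℕ) : ℂ)) / (s.1.1.2 : ℂ))

lemma card_Idx (N : ℕ) : Fintype.card (Idx N) = ∑ p ∈ N.divisorsAntidiagonal, p.2 := by
  rw [Fintype.card_sigma, ← Finset.sum_coe_sort N.divisorsAntidiagonal]
  simp

lemma sum_val (N m : ℕ) (z : ℂ) :
    ∑ s, val N z s ^ m = heckeSum N (fun w => Jc w ^ m) z := by
  rw [heckeSum, Fintype.sum_sigma, ← Finset.sum_coe_sort N.divisorsAntidiagonal]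
  refine Finset.sum_congr rfl fun p _ => ?_
  rw [Finset.sum_range]
  rfl

lemma card_Idx_le {N : ℕ} (hN : 0 < N) : Fintype.card (Idx N) ≤ N ^ 2 := by
  rw [card_Idx]
  calc ∑ p ∈ N.divisorsAntidiagonal, p.2 ≤ ∑ _p ∈ N.divisorsAntidiagonal, N := by
        refine Finset.sum_le_sum fun p hp => ?_
        obtain ⟨hp1, hN0⟩ := Nat.mem_divisorsAntidiagonal.1 hp
        exact Nat.le_of_dvd hN ⟨p.1, by rw [← hp1, mul_comm]⟩
    _ = N.divisorsAntidiagonal.card * N := by rw [Finset.sum_const, smul_eq_mul]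
    _ ≤ N * N := by
        refine Nat.mul_le_mul_right _ ?_
        have h1 : N.divisorsAntidiagonal.card = N.divisors.card := by
          rw [← Nat.map_div_right_divisors, Finset.card_map]
        rw [h1]
        exact Nat.card_divisors_le_self N
    _ = N ^ 2 := by ring

/-- The values of the elementary symmetric functions. -/
lemma esymm_le {σ : Type*} [Fintype σ] (x : σ → ℂ) (B : ℝ) (hB : 0 ≤ B) (hx : ∀ s, ‖x s‖ ≤ B)
    (k : ℕ) : ‖MvPolynomial.aeval x (MvPolynomial.esymm σ ℤ k)‖ ≤ (1 + B) ^ Fintype.card σ := by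
  classical
  rw [MvPolynomial.esymm, map_sum]
  refine (norm_sum_le _ _).trans ?_
  have h1 : ∀ t ∈ Finset.powersetCard k (Finset.univ : Finset σ),
      ‖MvPolynomial.aeval x (∏ i ∈ t, (MvPolynomial.X i : MvPolynomial σ ℤ))‖ ≤ ∏ _i ∈ t, B := by
    intro t _
    rw [map_prod, norm_prod]
    refine Finset.prod_le_prod (fun _ _ => norm_nonneg _) fun i _ => ?_
    rw [MvPolynomial.aeval_X]
    exact hx i
  refine (Finset.sum_le_sum h1).trans ?_
  have h2 : (1 + B) ^ Fintype.card σ = ∑ t ∈ (Finset.univ : Finset σ).powerset, ∏ _i ∈ t, B := by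
    rw [← Finset.prod_one_add, Finset.prod_const, Finset.card_univ]
  rw [h2]
  refine Finset.sum_le_sum_of_subset_of_nonneg ?_ fun t _ _ => Finset.prod_nonneg fun _ _ => hB
  intro t _
  simp

/-- The product formula. -/
lemma prod_formula {N : ℕ} {E : ℕ → ℤ[X]} (M : ℕ) (hM : Fintype.card (Idx N) = M) (z u : ℂ)
    (hE : ∀ k, aeval (Jc z) (E k) =
      (k.factorial : ℂ) * MvPolynomial.aeval (val N z) (MvPolynomial.esymm (Idx N) ℤ k)) :
    ∑ k ∈ Finset.range (M + 1), (-1 : ℂ) ^ k * ((M.factorial / k.factorial : ℕ) : ℂ) *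
      aeval (Jc z) (E k) * u ^ (M - k) = (M.factorial : ℂ) * ∏ s, (u - val N z s) := by
  have hv := Multiset.prod_X_sub_X_eq_sum_esymm (Multiset.map (val N z) Finset.univ.val)
  have hv2 := congrArg (Polynomial.eval u) hv
  rw [Polynomial.eval_multiset_prod, Multiset.map_map, Multiset.map_map,
    Polynomial.eval_finsetSum, Multiset.card_map] at hv2
  have hc : Multiset.card (Finset.univ : Finset (Idx N)).val = M := by
    rw [Finset.card_val, Finset.card_univ, hM]
  rw [hc] at hv2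
  have hl : (Multiset.map ((Polynomial.eval u ∘ fun t => X - C t) ∘ val N z)
      (Finset.univ : Finset (Idx N)).val).prod = ∏ s, (u - val N z s) := by
    rw [Finset.prod_eq_multiset_prod]
    congr 1
    refine Multiset.map_congr rfl fun s _ => ?_
    simp
  rw [hl] at hv2
  rw [hv2, Finset.mul_sum]
  refine Finset.sum_congr rfl fun k hk => ?_
  rw [Finset.mem_range] at hk
  simp only [hE k, MvPolynomial.aeval_esymm_eq_multiset_esymm, Polynomial.eval_mul,
    Polynomial.eval_pow, Polynomial.eval_neg, Polynomial.eval_one, Polynomial.eval_C,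
    Polynomial.eval_X]
  have hdiv : ((M.factorial / k.factorial : ℕ) : ℂ) * (k.factorial : ℂ)
      = (M.factorial : ℂ) := by
    rw [← Nat.cast_mul, Nat.div_mul_cancel (Nat.factorial_dvd_factorial (by omega))]
  rw [← hdiv]
  ring

/-- The modular polynomial, with denominators cleared. -/
noncomputable def poly (M D : ℕ) (E : ℕ → ℤ[X]) : MvPolynomial (Fin 2) ℤ :=
  ∑ k ∈ Finset.range (M + 1), ∑ i ∈ Finset.range (D + 1),
    MvPolynomial.monomial (Finsupp.single 0 (M - k) + Finsupp.single 1 i)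
      ((-1) ^ k * ((M.factorial / k.factorial : ℕ) : ℤ) * (E k).coeff i)

lemma aeval_poly {M D : ℕ} {E : ℕ → ℤ[X]} (hE : ∀ k, k ≤ M → (E k).natDegree ≤ D) (u v : ℂ) :
    MvPolynomial.aeval ![u, v] (poly M D E) =
      ∑ k ∈ Finset.range (M + 1), (-1 : ℂ) ^ k * ((M.factorial / k.factorial : ℕ) : ℂ) *
        aeval v (E k) * u ^ (M - k) := by
  rw [poly, map_sum]
  refine Finset.sum_congr rfl fun k hk => ?_
  rw [Finset.mem_range] at hk
  rw [map_sum, aeval_eq_sum_range' (n := D + 1) (by have := hE k (by omega); omega), Finset.mul_sum,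
    Finset.sum_mul]
  refine Finset.sum_congr rfl fun i _ => ?_
  rw [MvPolynomial.aeval_monomial, Finsupp.prod_add_index' (by simp) (by intro a b c; rw [pow_add]),
    Finsupp.prod_single_index (by simp), Finsupp.prod_single_index (by simp)]
  simp only [Matrix.cons_val_zero, Matrix.cons_val_one, zsmul_eq_mul, map_mul, map_pow, map_neg,
    map_one, algebraMap_int_eq, eq_intCast, Int.cast_natCast]
  ring

lemma totalDegree_poly (M D : ℕ) (E : ℕ → ℤ[X]) : (poly M D E).totalDegree ≤ M + D := by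
  rw [poly]
  refine (MvPolynomial.totalDegree_finsetSum_le fun k _ => ?_)
  refine (MvPolynomial.totalDegree_finsetSum_le fun i hi => ?_)
  rw [Finset.mem_range] at hi
  refine (MvPolynomial.totalDegree_monomial_le _ _).trans ?_
  rw [Finsupp.sum_add_index' (fun _ => rfl) (fun _ _ _ => rfl), Finsupp.sum_single_index rfl,
    Finsupp.sum_single_index rfl]
  show M - k + i ≤ M + D
  omega

lemma cSum_poly (M D : ℕ) (E : ℕ → ℤ[X]) (B : ℝ)
    (h : ∀ k i, k ≤ M → |((E k).coeff i : ℝ)| ≤ (k.factorial : ℝ) * B) :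
    (L3.cSum (poly M D E) : ℝ) ≤ (M + 1) * (D + 1) * ((M.factorial : ℝ) * B) := by
  have h1 : (L3.cSum (poly M D E) : ℝ) ≤ ((∑ k ∈ Finset.range (M + 1), ∑ i ∈ Finset.range (D + 1),
      ((-1 : ℤ) ^ k * ((M.factorial / k.factorial : ℕ) : ℤ) * (E k).coeff i).natAbs : ℕ) : ℝ) := by
    have : L3.cSum (poly M D E) ≤ ∑ k ∈ Finset.range (M + 1), ∑ i ∈ Finset.range (D + 1),
      ((-1 : ℤ) ^ k * ((M.factorial / k.factorial : ℕ) : ℤ) * (E k).coeff i).natAbs := by
      rw [poly]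
      refine (cSum_sum_le _ _).trans (Finset.sum_le_sum fun k _ => ?_)
      refine (cSum_sum_le _ _).trans (Finset.sum_le_sum fun i _ => ?_)
      exact cSum_monomial_le _ _
    exact_mod_cast this
  refine h1.trans ?_
  push_cast
  have h2 : ∀ k ∈ Finset.range (M + 1), ∀ i ∈ Finset.range (D + 1),
      (((-1 : ℤ) ^ k * ((M.factorial / k.factorial : ℕ) : ℤ) * (E k).coeff i).natAbs : ℝ) ≤
        (M.factorial : ℝ) * B := by
    intro k hk i _
    rw [Finset.mem_range] at hk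
    rw [Nat.cast_natAbs, Int.cast_abs]
    push_cast
    rw [abs_mul, abs_mul, abs_pow, abs_neg, abs_one, one_pow, one_mul]
    have h3 := h k i (by omega)
    have h4 : ((M.factorial / k.factorial : ℕ) : ℝ) * (k.factorial : ℝ) = (M.factorial : ℝ) := by
      rw [← Nat.cast_mul, Nat.div_mul_cancel (Nat.factorial_dvd_factorial (by omega))]
    rw [abs_of_nonneg (Nat.cast_nonneg _), ← h4, mul_assoc]
    exact mul_le_mul_of_nonneg_left h3 (Nat.cast_nonneg _)
  calc _ ≤ ∑ _k ∈ Finset.range (M + 1), ∑ _i ∈ Finset.range (D + 1), (M.factorial : ℝ) * B :=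
        Finset.sum_le_sum fun k hk => Finset.sum_le_sum fun i hi => h2 k hk i hi
    _ = (M + 1) * (D + 1) * ((M.factorial : ℝ) * B) := by
        simp only [Finset.sum_const, Finset.card_range, nsmul_eq_mul]
        push_cast
        ring

end ModP

open Hk.ModP

/-- MODP: modular polynomials of bounded size. -/
theorem specModP : SpecModP := by
  classical
  obtain ⟨K, hK, hup, hlow⟩ := CMB.exists_K specJ
  have hKR : (1 : ℝ) ≤ K := by exact_mod_cast hK
  refine ⟨12 + (16 * K + 4), fun H hH x y z w hx hy hz hw hdet => ?_⟩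
  obtain ⟨N, hNeq⟩ := Int.eq_ofNat_of_zero_le hdet.le
  have hN : 0 < N := by
    rw [hNeq] at hdet
    exact_mod_cast hdet
  have hNR : (1 : ℝ) ≤ N := by exact_mod_cast hN
  have hNH : N ≤ 2 * H ^ 2 := by
    have h1 : x * w ≤ H * H := (le_abs_self _).trans (by
      rw [abs_mul]; exact mul_le_mul hx hw (abs_nonneg _) (by positivity))
    have h2 : -(y * z) ≤ H * H := (neg_le_abs _).trans (by
      rw [abs_mul]; exact mul_le_mul hy hz (abs_nonneg _) (by positivity))
    have h3 : (N : ℤ) ≤ 2 * H ^ 2 := by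
      rw [← hNeq]
      nlinarith
    exact_mod_cast h3
  set M := Fintype.card (Idx N) with hMdef
  have hMN : M ≤ N ^ 2 := card_Idx_le hN
  -- the elementary symmetric functions
  have hE := newton_family (σ := Idx N) {z : ℂ | 0 < z.im} N Jc (val N) (fun m => by
    obtain ⟨Q, hQ1, hQ2⟩ := powerSum N m hN
    exact ⟨Q, hQ1, fun z hz => by rw [sum_val N m z]; exact hQ2 z hz⟩)
  choose E hEdeg hE using hE
  have hEdeg' : ∀ k, k ≤ M → (E k).natDegree ≤ M * N := fun k hk =>
    (hEdeg k).trans (Nat.mul_le_mul_right _ hk)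
  have hprod : ∀ z : ℂ, 0 < z.im → ∀ u : ℂ, MvPolynomial.aeval ![u, Jc z] (poly M (M * N) E) =
      (M.factorial : ℂ) * ∏ s, (u - val N z s) := fun z hz u => by
    rw [aeval_poly hEdeg', prod_formula M rfl z u fun k => hE k z hz]
  -- size of the values
  set R : ℝ := 2 * N * K with hRdef
  have hR1 : 1 ≤ R := by rw [hRdef]; nlinarith
  set B : ℝ := Real.exp (2 * π * R) + K with hBdef
  have hB0 : 0 ≤ B := by rw [hBdef]; positivity
  have hval : ∀ z : ℂ, 1 / 2 ≤ z.im → z.im ≤ K → ∀ s : Idx N, ‖val N z s‖ ≤ B := by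
    intro z hz1 hz2 s
    obtain ⟨⟨⟨a, d⟩, hp⟩, b⟩ := s
    obtain ⟨hp1, hN0⟩ := Nat.mem_divisorsAntidiagonal.1 hp
    simp only at hp1
    have ha : 0 < a := Nat.pos_of_ne_zero fun h => hN0 (by rw [← hp1, h, zero_mul])
    have hd : 0 < d := Nat.pos_of_ne_zero fun h => hN0 (by rw [← hp1, h, mul_zero])
    have hdN : d ≤ N := Nat.le_of_dvd hN ⟨a, by rw [← hp1, mul_comm]⟩
    have haN : a ≤ N := Nat.le_of_dvd hN ⟨d, by rw [← hp1]⟩
    have haR : (1 : ℝ) ≤ a := by exact_mod_cast ha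
    have hdR : (1 : ℝ) ≤ d := by exact_mod_cast hd
    have hdNR : (d : ℝ) ≤ N := by exact_mod_cast hdN
    have haNR : (a : ℝ) ≤ N := by exact_mod_cast haN
    have him : (((a : ℂ) * z + ((b : ℕ) : ℂ)) / (d : ℂ)).im = a * z.im / d := by
      rw [Complex.div_natCast_im]
      simp
    show ‖Jc (((a : ℂ) * z + ((b : ℕ) : ℂ)) / (d : ℂ))‖ ≤ B
    refine Jc_strip hup hlow hR1 ?_ ?_
    · rw [him, div_le_div_iff₀ (by linarith) (by linarith), hRdef]
      have h1 : (1 : ℝ) / 2 ≤ a * z.im := by nlinarith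
      have h2 : (d : ℝ) ≤ N * K := by nlinarith
      have h3 : (0 : ℝ) ≤ 2 * N * K := by positivity
      nlinarith
    · rw [him, div_le_iff₀ (by linarith), hRdef]
      have h1 : (a : ℝ) * z.im ≤ N * K := mul_le_mul haNR hz2 (by linarith) (by linarith)
      have h3 : (0 : ℝ) ≤ N * K := by positivity
      nlinarith
  have hcoef : ∀ k i, k ≤ M → |((E k).coeff i : ℝ)| ≤ (k.factorial : ℝ) * (1 + B) ^ M := by
    intro k i _
    refine coeff_le_of_circle _ _ (fun v hv => ?_) i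
    obtain ⟨z, hz1, hz2, rfl⟩ := exists_point specJ hK hup hv
    rw [hE k z (show 0 < z.im by linarith), norm_mul, RCLike.norm_natCast]
    exact mul_le_mul_of_nonneg_left (esymm_le _ B hB0 (hval z hz1 hz2) k) (Nat.cast_nonneg _)
  -- exponents
  have hexp : N ^ 4 * (16 * K + 4) ≤ H ^ (12 + (16 * K + 4)) := by
    have h1 : N ≤ H ^ 3 := by
      refine hNH.trans ?_
      calc 2 * H ^ 2 ≤ H * H ^ 2 := Nat.mul_le_mul_right _ hH
        _ = H ^ 3 := by ring
    have h2 : N ^ 4 ≤ H ^ 12 := by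
      calc N ^ 4 ≤ (H ^ 3) ^ 4 := Nat.pow_le_pow_left h1 4
        _ = H ^ 12 := by rw [← pow_mul]
    have h3 : 16 * K + 4 ≤ H ^ (16 * K + 4) :=
      (Nat.lt_two_pow_self).le.trans (Nat.pow_le_pow_left hH _)
    rw [pow_add]
    exact Nat.mul_le_mul h2 h3
  have hN4 : 1 ≤ N ^ 4 := Nat.one_le_pow _ _ hN
  have hN24 : N ^ 2 ≤ N ^ 4 := Nat.pow_le_pow_right hN (by norm_num)
  have hN34 : N ^ 2 * N ≤ N ^ 4 := by
    calc N ^ 2 * N = N ^ 3 := by ring
      _ ≤ N ^ 4 := Nat.pow_le_pow_right hN (by norm_num)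
  have hMN3 : M * N ≤ N ^ 4 := (Nat.mul_le_mul_right _ hMN).trans hN34
  refine ⟨poly M (M * N) E, ?_, ?_, ?_, ?_⟩
  · refine (totalDegree_poly _ _ _).trans (le_trans ?_ hexp)
    nlinarith
  · refine (cSum_poly M (M * N) E _ hcoef).trans ?_
    have hfac : (M.factorial : ℝ) ≤ Real.exp ((N : ℝ) ^ 4) := by
      have h1 : (M.factorial : ℝ) ≤ (M : ℝ) ^ M := by exact_mod_cast Nat.factorial_le_pow M
      have h2 : (M : ℝ) ≤ Real.exp M := by
        have := Real.add_one_le_exp (M : ℝ)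
        linarith
      have hMR : (M : ℝ) ≤ (N : ℝ) ^ 2 := by exact_mod_cast hMN
      calc (M.factorial : ℝ) ≤ (M : ℝ) ^ M := h1
        _ ≤ Real.exp M ^ M := by gcongr
        _ = Real.exp (M * M) := by rw [← Real.exp_nat_mul]
        _ ≤ Real.exp ((N : ℝ) ^ 4) := by
          rw [Real.exp_le_exp]
          have h3 : (0 : ℝ) ≤ M := Nat.cast_nonneg M
          calc (M : ℝ) * M ≤ (N : ℝ) ^ 2 * (N : ℝ) ^ 2 := mul_le_mul hMR hMR h3 (by positivity)
            _ = (N : ℝ) ^ 4 := by ring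
    have hpi3 := Real.pi_gt_three
    have hpi4 := Real.pi_lt_d2
    have hB1 : 1 + B ≤ Real.exp (15 * (N * K)) := by
      have h1 : Real.exp (2 * π * R) ≤ Real.exp (12.6 * (N * K)) := by
        rw [Real.exp_le_exp, hRdef]
        have : (0 : ℝ) ≤ N * K := by positivity
        nlinarith
      have h2 : (2 : ℝ) + K ≤ Real.exp (2.4 * (N * K)) := by
        have h3 := Real.add_one_le_exp (2.4 * ((N : ℝ) * K))
        have h4 : (K : ℝ) ≤ N * K := by nlinarith
        linarith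
      have h3 : (1 : ℝ) ≤ Real.exp (12.6 * (N * K)) := by
        rw [Real.one_le_exp_iff]
        positivity
      have h4 : Real.exp (15 * (N * K)) = Real.exp (12.6 * (N * K)) * Real.exp (2.4 * (N * K)) := by
        rw [← Real.exp_add]
        congr 1
        ring
      rw [h4, hBdef]
      nlinarith [mul_le_mul_of_nonneg_left h2 (le_trans zero_le_one h3)]
    have hB2 : (1 + B) ^ M ≤ Real.exp (15 * K * N ^ 4) := by
      calc (1 + B) ^ M ≤ Real.exp (15 * (N * K)) ^ M := by gcongr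
        _ = Real.exp (M * (15 * (N * K))) := by rw [← Real.exp_nat_mul]
        _ ≤ Real.exp (15 * K * N ^ 4) := by
          rw [Real.exp_le_exp]
          have h1 : (M : ℝ) * N ≤ (N : ℝ) ^ 4 := by exact_mod_cast hMN3
          have h2 : (0 : ℝ) ≤ 15 * K := by positivity
          calc (M : ℝ) * (15 * (N * K)) = 15 * K * (M * N) := by ring
            _ ≤ 15 * K * N ^ 4 := mul_le_mul_of_nonneg_left h1 h2
    have hM1 : (M : ℝ) + 1 ≤ Real.exp ((N : ℝ) ^ 4) := by
      refine (Real.add_one_le_exp _).trans ?_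
      rw [Real.exp_le_exp]
      exact_mod_cast hMN.trans hN24
    have hM2 : ((M * N : ℕ) : ℝ) + 1 ≤ Real.exp ((N : ℝ) ^ 4) := by
      refine (Real.add_one_le_exp _).trans ?_
      rw [Real.exp_le_exp]
      exact_mod_cast hMN3
    have hexpR : ((N : ℝ) ^ 4 * (16 * K + 4)) ≤ (H : ℝ) ^ (12 + (16 * K + 4)) := by
      exact_mod_cast hexp
    calc ((M : ℝ) + 1) * (((M * N : ℕ) : ℝ) + 1) * ((M.factorial : ℝ) * (1 + B) ^ M)
        ≤ Real.exp ((N : ℝ) ^ 4) * Real.exp ((N : ℝ) ^ 4) *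
          (Real.exp ((N : ℝ) ^ 4) * Real.exp (15 * K * N ^ 4)) := by
          gcongr
      _ = Real.exp ((N : ℝ) ^ 4 * (15 * K + 3)) := by
          rw [← Real.exp_add, ← Real.exp_add, ← Real.exp_add]
          congr 1
          ring
      _ ≤ Real.exp ((H : ℝ) ^ (12 + (16 * K + 4))) := by
          rw [Real.exp_le_exp]
          refine le_trans ?_ hexpR
          have : (0 : ℝ) ≤ (N : ℝ) ^ 4 := by positivity
          nlinarith
  · intro v
    obtain ⟨z, hz, rfl⟩ := specJ.surj v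
    obtain ⟨u, hu⟩ := Infinite.exists_notMem_finset (Finset.univ.image (val N z))
    refine ⟨u, ?_⟩
    rw [hprod z (by linarith) u]
    refine mul_ne_zero (by exact_mod_cast Nat.factorial_ne_zero _) ?_
    rw [Finset.prod_ne_zero_iff]
    intro s _ h0
    exact hu (Finset.mem_image.2 ⟨s, Finset.mem_univ _, (sub_eq_zero.1 h0).symm⟩)
  · intro τ hτ
    obtain ⟨p, hp, b, hb, he⟩ := CMB.exists_rep specJ N hN x y z w hNeq hτ
    rw [hprod τ hτ, he]
    refine mul_eq_zero_of_right _ (Finset.prod_eq_zero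
      (Finset.mem_univ (⟨⟨p, hp⟩, ⟨b, Finset.mem_range.1 hb⟩⟩ : Idx N)) ?_)
    rw [ModP.val, sub_self]

end Pool.Agent.Lib.MP_47914d_nt.Hk
end
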