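import Pool.Agent.Lib.MP_47914d_nt.Hk.Spec
import Pool.Agent.Lib.MP_47914d_nt.Hk.ModP

section
/-!
MP_47914d_nt, project Hk, module ROOTT (helper40): zeros of polynomials whose coefficients are
algebraic over the field of rational functions of a transcendental number, with bounded size.
Adaptation of Sn/Root.lean (helper42): integer matrices are replaced by matrices over the integral
polynomials in the transcendental number.
-/
set_option autoImplicit false

open Complex Polynomial Finset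

namespace Pool.Agent.Lib.MP_47914d_nt.Hk

namespace Root

/-! ### sum of the absolute values of the coefficients -/

/-- sum of the absolute values of the coefficients -/
noncomputable def l1 (p : ℤ[X]) : ℝ := ∑ i ∈ p.support, |(p.coeff i : ℝ)|

lemma l1_nonneg (p : ℤ[X]) : 0 ≤ l1 p := Finset.sum_nonneg fun _ _ => abs_nonneg _

lemma l1_eq {p : ℤ[X]} {s : Finset ℕ} (h : p.support ⊆ s) :
    l1 p = ∑ i ∈ s, |(p.coeff i : ℝ)| := by
  rw [l1]
  apply Finset.sum_subset h
  intro i _ hi
  rw [Polynomial.notMem_support_iff] at hi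
  simp [hi]

lemma abs_coeff_le (p : ℤ[X]) (i : ℕ) : |(p.coeff i : ℝ)| ≤ l1 p := by
  by_cases h : i ∈ p.support
  · exact Finset.single_le_sum (f := fun i => |(p.coeff i : ℝ)|) (fun _ _ => abs_nonneg _) h
  · rw [Polynomial.notMem_support_iff] at h
    simp only [h, Int.cast_zero, abs_zero]
    exact l1_nonneg p

lemma l1_zero : l1 0 = 0 := by simp [l1]

lemma l1_add_le (p q : ℤ[X]) : l1 (p + q) ≤ l1 p + l1 q := by
  rw [l1_eq (p := p + q) (s := p.support ∪ q.support) Polynomial.support_add,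
    l1_eq (p := p) (s := p.support ∪ q.support) Finset.subset_union_left,
    l1_eq (p := q) (s := p.support ∪ q.support) Finset.subset_union_right,
    ← Finset.sum_add_distrib]
  apply Finset.sum_le_sum
  intro i _
  rw [Polynomial.coeff_add]
  push_cast
  exact abs_add_le _ _

lemma l1_sum_le {κ : Type*} (s : Finset κ) (f : κ → ℤ[X]) :
    l1 (∑ x ∈ s, f x) ≤ ∑ x ∈ s, l1 (f x) := by
  classical
  induction s using Finset.induction_on with
  | empty => simp [l1_zero]
  | insert a s ha ih =>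
    rw [Finset.sum_insert ha, Finset.sum_insert ha]
    exact (l1_add_le _ _).trans (add_le_add le_rfl ih)

lemma l1_monomial (n : ℕ) (a : ℤ) : l1 (Polynomial.monomial n a) = |(a : ℝ)| := by
  rw [l1_eq (s := {n}) (Polynomial.support_monomial_subset n a)]
  simp

lemma l1_C (a : ℤ) : l1 (Polynomial.C a) = |(a : ℝ)| := l1_monomial 0 a

lemma l1_one : l1 1 = 1 := by
  have := l1_C 1
  simpa using this

lemma l1_neg (p : ℤ[X]) : l1 (-p) = l1 p := by
  rw [l1, l1, Polynomial.support_neg]
  apply Finset.sum_congr rfl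
  intro i _
  rw [Polynomial.coeff_neg]
  push_cast
  exact abs_neg _

lemma l1_mul_le (p q : ℤ[X]) : l1 (p * q) ≤ l1 p * l1 q := by
  rw [Polynomial.mul_eq_sum_sum]
  refine (l1_sum_le _ _).trans ?_
  rw [l1, Finset.sum_mul]
  apply Finset.sum_le_sum
  intro i _
  rw [Polynomial.sum_def]
  refine (l1_sum_le _ _).trans ?_
  rw [l1, Finset.mul_sum]
  apply Finset.sum_le_sum
  intro j _
  rw [l1_monomial]
  push_cast
  rw [abs_mul]

lemma l1_pow_le (p : ℤ[X]) (k : ℕ) : l1 (p ^ k) ≤ l1 p ^ k := by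
  induction k with
  | zero => rw [pow_zero, pow_zero, l1_one]
  | succ k ih =>
    rw [pow_succ, pow_succ]
    exact (l1_mul_le _ _).trans (mul_le_mul_of_nonneg_right ih (l1_nonneg p))

lemma l1_le_of {p : ℤ[X]} {D : ℕ} {B : ℝ} (hd : p.natDegree ≤ D)
    (h : ∀ i, |(p.coeff i : ℝ)| ≤ B) : l1 p ≤ (D + 1) * B := by
  rw [l1_eq (s := Finset.range (D + 1))]
  · calc ∑ i ∈ Finset.range (D + 1), |(p.coeff i : ℝ)| ≤ ∑ _i ∈ Finset.range (D + 1), B :=
        Finset.sum_le_sum fun i _ => h i
      _ = (D + 1) * B := by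
        rw [Finset.sum_const, Finset.card_range, nsmul_eq_mul]; push_cast; ring
  · intro i hi
    rw [Finset.mem_range]
    have := Polynomial.le_natDegree_of_mem_supp i hi
    omega

/-! ### multiplication by matrices over `ℤ[θ]` -/

/-- `z * u i` is a combination of the `u j` with coefficients `c j (θ)`, `c j` of degree at most
`e` and `l1 (c j) ≤ B`. -/
def IBT {ι : Type} [Fintype ι] (θ : ℂ) (u : ι → ℂ) (B : ℝ) (e : ℕ) (z : ℂ) : Prop :=
  ∀ i, ∃ c : ι → ℤ[X], (∀ j, (c j).natDegree ≤ e) ∧ (∀ j, l1 (c j) ≤ B) ∧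
    z * u i = ∑ j, aeval θ (c j) * u j

section Basic

variable {ι : Type} [Fintype ι] {θ : ℂ} {u : ι → ℂ} {B B' : ℝ} {e e' : ℕ} {z z' : ℂ}

lemma IBT.mono (h : IBT θ u B e z) (hB : B ≤ B') (he : e ≤ e') : IBT θ u B' e' z := by
  intro i
  obtain ⟨c, h0, h1, h2⟩ := h i
  exact ⟨c, fun j => (h0 j).trans he, fun j => (h1 j).trans hB, h2⟩

lemma IBT.nonneg [Nonempty ι] (h : IBT θ u B e z) : 0 ≤ B := by
  obtain ⟨i⟩ := ‹Nonempty ι›
  obtain ⟨c, _, h1, _⟩ := h i
  exact (l1_nonneg _).trans (h1 i)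

lemma IBT.const (a : ℤ[X]) (ha : a.natDegree ≤ e) (hB : l1 a ≤ B) :
    IBT θ u B e (aeval θ a) := by
  classical
  intro i
  refine ⟨Pi.single i a, ?_, ?_, ?_⟩
  · intro j
    by_cases h : j = i
    · subst h; simpa using ha
    · rw [Pi.single_eq_of_ne h]; simp
  · intro j
    by_cases h : j = i
    · subst h; simpa using hB
    · rw [Pi.single_eq_of_ne h, l1_zero]
      exact (l1_nonneg a).trans hB
  · rw [Finset.sum_eq_single i]
    · simp
    · intro j _ hj
      rw [Pi.single_eq_of_ne hj]; simp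
    · intro h; exact absurd (Finset.mem_univ i) h

lemma IBT.add (h : IBT θ u B e z) (h' : IBT θ u B' e z') : IBT θ u (B + B') e (z + z') := by
  intro i
  obtain ⟨c, h0, h1, h2⟩ := h i
  obtain ⟨c', h0', h1', h2'⟩ := h' i
  refine ⟨fun j => c j + c' j, ?_, ?_, ?_⟩
  · intro j
    exact (Polynomial.natDegree_add_le _ _).trans (max_le (h0 j) (h0' j))
  · intro j
    exact (l1_add_le _ _).trans (add_le_add (h1 j) (h1' j))
  · rw [add_mul, h2, h2', ← Finset.sum_add_distrib]
    apply Finset.sum_congr rfl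
    intro j _
    rw [map_add]; ring

lemma IBT.mul (h : IBT θ u B e z) (h' : IBT θ u B' e' z') (_hB : 0 ≤ B) (hB' : 0 ≤ B') :
    IBT θ u (Fintype.card ι * B * B') (e + e') (z * z') := by
  classical
  intro i
  obtain ⟨c', h0', h1', h2'⟩ := h' i
  choose c h0 h1 h2 using h
  refine ⟨fun k => ∑ j, c' j * c j k, ?_, ?_, ?_⟩
  · intro k
    apply Polynomial.natDegree_sum_le_of_forall_le
    intro j _
    refine Polynomial.natDegree_mul_le.trans ?_
    have := h0 j k
    have := h0' j
    omega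
  · intro k
    refine (l1_sum_le _ _).trans ?_
    calc ∑ j, l1 (c' j * c j k) ≤ ∑ _j : ι, B' * B := by
          apply Finset.sum_le_sum
          intro j _
          exact (l1_mul_le _ _).trans (mul_le_mul (h1' j) (h1 j k) (l1_nonneg _) hB')
      _ = Fintype.card ι * B * B' := by
          rw [Finset.sum_const, Finset.card_univ, nsmul_eq_mul]; ring
  · rw [mul_assoc, h2', Finset.mul_sum]
    have : ∀ j, z * (aeval θ (c' j) * u j) = ∑ k, aeval θ (c' j) * aeval θ (c j k) * u k := by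
      intro j
      rw [mul_left_comm, h2 j, Finset.mul_sum]
      apply Finset.sum_congr rfl
      intro k _
      ring
    rw [Finset.sum_congr rfl (fun j _ => this j), Finset.sum_comm]
    apply Finset.sum_congr rfl
    intro k _
    rw [map_sum, Finset.sum_mul]
    apply Finset.sum_congr rfl
    intro j _
    rw [map_mul]

lemma IBT.pow (h : IBT θ u B e z) (hB : 0 ≤ B) (k : ℕ) :
    IBT θ u ((Fintype.card ι * B) ^ k) (e * k) (z ^ k) := by
  induction k with
  | zero =>
    rw [pow_zero, pow_zero]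
    have := IBT.const (θ := θ) (u := u) (e := e * 0) (B := 1) 1 (by simp) (by rw [l1_one])
    simpa using this
  | succ k ih =>
    rw [pow_succ, pow_succ]
    have := ih.mul h (by positivity) hB
    have e1 : e * k + e = e * (k + 1) := by ring
    rw [e1] at this
    convert this using 1
    ring

lemma IBT.smul (h : IBT θ u B e z) (g : ℤ) : IBT θ u (|(g : ℝ)| * B) e ((g : ℂ) * z) := by
  intro i
  obtain ⟨c, h0, h1, h2⟩ := h i
  refine ⟨fun j => Polynomial.C g * c j, ?_, ?_, ?_⟩
  · intro j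
    exact (Polynomial.natDegree_C_mul_le _ _).trans (h0 j)
  · intro j
    refine (l1_mul_le _ _).trans ?_
    rw [l1_C]
    exact mul_le_mul_of_nonneg_left (h1 j) (abs_nonneg _)
  · rw [mul_assoc, h2, Finset.mul_sum]
    apply Finset.sum_congr rfl
    intro j _
    rw [map_mul, Polynomial.aeval_C]
    simp
    ring

lemma IBT.zsum {κ : Type*} (s : Finset κ) (g : κ → ℤ) (z : κ → ℂ)
    (h : ∀ x ∈ s, IBT θ u B e (z x)) :
    IBT θ u ((∑ x ∈ s, |(g x : ℝ)|) * B) e (∑ x ∈ s, (g x : ℂ) * z x) := by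
  classical
  induction s using Finset.induction_on with
  | empty =>
    rw [Finset.sum_empty, Finset.sum_empty, zero_mul]
    have := IBT.const (θ := θ) (u := u) (e := e) (B := 0) 0 (by simp) (by rw [l1_zero])
    simpa using this
  | insert a s ha ih =>
    rw [Finset.sum_insert ha, Finset.sum_insert ha, add_mul]
    exact ((h a (Finset.mem_insert_self a s)).smul (g a)).add
      (ih fun x hx => h x (Finset.mem_insert_of_mem hx))

lemma IBT.tensor {κ : Type} [Fintype κ] (v : κ → ℂ) (h : IBT θ u B e z) (hB : 0 ≤ B) :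
    IBT θ (fun x : ι × κ => u x.1 * v x.2) B e z := by
  classical
  rintro ⟨i, k⟩
  obtain ⟨c, h0, h1, h2⟩ := h i
  refine ⟨fun x => if x.2 = k then c x.1 else 0, ?_, ?_, ?_⟩
  · rintro ⟨j, l⟩
    dsimp only
    split_ifs
    · exact h0 j
    · simp
  · rintro ⟨j, l⟩
    dsimp only
    split_ifs
    · exact h1 j
    · rw [l1_zero]; exact hB
  · dsimp only
    rw [← mul_assoc, h2, Fintype.sum_prod_type, Finset.sum_mul]
    apply Finset.sum_congr rfl
    intro j _
    rw [Finset.sum_eq_single k]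
    · simp; ring
    · intro l _ hl
      rw [if_neg hl]; simp
    · intro h; exact absurd (Finset.mem_univ k) h

lemma IBT.tensor' {κ : Type} [Fintype κ] (v : κ → ℂ) (h : IBT θ u B e z) (hB : 0 ≤ B) :
    IBT θ (fun x : κ × ι => v x.1 * u x.2) B e z := by
  classical
  rintro ⟨k, i⟩
  obtain ⟨c, h0, h1, h2⟩ := h i
  refine ⟨fun x => if x.1 = k then c x.2 else 0, ?_, ?_, ?_⟩
  · rintro ⟨l, j⟩
    dsimp only
    split_ifs
    · exact h0 j
    · simp
  · rintro ⟨l, j⟩
    dsimp only
    split_ifs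
    · exact h1 j
    · rw [l1_zero]; exact hB
  · dsimp only
    rw [mul_left_comm, h2, Fintype.sum_prod_type, Finset.mul_sum, Finset.sum_eq_single k]
    · apply Finset.sum_congr rfl
      intro j _
      simp; ring
    · intro l _ hl
      apply Finset.sum_eq_zero
      intro j _
      rw [if_neg hl]; simp
    · intro h; exact absurd (Finset.mem_univ k) h

end Basic


attribute [local instance] Matrix.seminormedAddCommGroup in
/-- The Siegel lemma step. -/
lemma final {θ : ℂ} {ι : Type} [Fintype ι] (u : ι → ℂ) (i0 : ι) (h0 : u i0 = 1) {Λ z : ℂ}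
    (hΛ : Λ ≠ 0) {B : ℝ} (hB : 1 ≤ B) {e : ℕ} (h1 : IBT θ u B e Λ) (h2 : IBT θ u B e (Λ * z)) :
    ∃ f : ℕ → ℕ → ℤ, (∃ i j, i < 2 * Fintype.card ι ∧ j ≤ (2 * Fintype.card ι - 1) * e ∧
        f i j ≠ 0) ∧
      (∀ i j, |(f i j : ℝ)| ≤
        (2 * Fintype.card ι * ((2 * Fintype.card ι - 1) * e + 1 : ℕ) *
          (Fintype.card ι * B) ^ (2 * Fintype.card ι)) ^
            (2 * ((2 * Fintype.card ι - 1) * e) + 1)) ∧
      (∀ i j, 2 * Fintype.card ι ≤ i → f i j = 0) ∧
      (∀ i j, (2 * Fintype.card ι - 1) * e < j → f i j = 0) ∧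
      ∑ i ∈ range (2 * Fintype.card ι), ∑ j ∈ range ((2 * Fintype.card ι - 1) * e + 1),
        (f i j : ℂ) * z ^ i * θ ^ j = 0 := by
  classical
  set n := Fintype.card ι with hn
  have hn0 : 0 < n := Fintype.card_pos_iff.2 ⟨i0⟩
  have hnR : (1 : ℝ) ≤ n := by exact_mod_cast hn0
  have hB0 : 0 ≤ B := by linarith
  have hnB : (1 : ℝ) ≤ n * B := by nlinarith
  set E := (2 * n - 1) * e with hE
  have hT : ∀ j : Fin (2 * n), ∃ c : ι → ℤ[X], (∀ k, (c k).natDegree ≤ E) ∧
      (∀ k, l1 (c k) ≤ (n * B) ^ (2 * n)) ∧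
      Λ ^ (2 * n - 1 - (j : ℕ)) * (Λ * z) ^ (j : ℕ) = ∑ k, aeval θ (c k) * u k := by
    intro j
    have hj := j.isLt
    have h3 := (h1.pow hB0 (2 * n - 1 - (j : ℕ))).mul (h2.pow hB0 (j : ℕ)) (by positivity)
      (by positivity)
    obtain ⟨c, h3', h4, h5⟩ := h3 i0
    refine ⟨c, fun k => (h3' k).trans ?_, fun k => (h4 k).trans ?_, ?_⟩
    · rw [← mul_add, mul_comm]
      have e1 : 2 * n - 1 - (j : ℕ) + (j : ℕ) = 2 * n - 1 := by omega
      rw [e1]
    · rw [← hn, mul_assoc, ← pow_add]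
      have e1 : 2 * n - 1 - (j : ℕ) + (j : ℕ) = 2 * n - 1 := by omega
      rw [e1]
      calc (n : ℝ) * (n * B) ^ (2 * n - 1) ≤ (n * B) * (n * B) ^ (2 * n - 1) := by
            apply mul_le_mul_of_nonneg_right _ (by positivity)
            nlinarith
        _ = (n * B) ^ (2 * n) := by
            rw [← pow_succ']
            congr 1
            omega
    · rw [h0, mul_one] at h5
      exact h5
  choose T hT0 hT1 hT2 using hT
  -- unknowns `(j, l)`, equations `(k, m)`
  let A : Matrix (ι × Fin (2 * E + 1)) (Fin (2 * n) × Fin (E + 1)) ℤ := fun b t =>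
    if (t.2 : ℕ) ≤ b.2 then (T t.1 b.1).coeff (b.2 - t.2) else 0
  have hc1 : Fintype.card (ι × Fin (2 * E + 1)) = n * (2 * E + 1) := by
    rw [Fintype.card_prod, Fintype.card_fin]
  have hc2 : Fintype.card (Fin (2 * n) × Fin (E + 1)) = 2 * n * (E + 1) := by
    rw [Fintype.card_prod, Fintype.card_fin, Fintype.card_fin]
  have hcard : Fintype.card (ι × Fin (2 * E + 1)) < Fintype.card (Fin (2 * n) × Fin (E + 1)) := by
    rw [hc1, hc2]; nlinarith
  have hcpos : 0 < Fintype.card (ι × Fin (2 * E + 1)) := by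
    rw [hc1]; positivity
  obtain ⟨t, ht0, ht1, ht2⟩ := Int.Matrix.exists_ne_zero_int_vec_norm_le A hcard hcpos
  have hAnorm : ‖A‖ ≤ (n * B) ^ (2 * n) := by
    rw [Matrix.norm_le_iff (by positivity)]
    intro b j
    rw [Int.norm_eq_abs]
    simp only [A]
    split_ifs
    · exact (abs_coeff_le _ _).trans (hT1 j.1 b.1)
    · simp only [Int.cast_zero, abs_zero]; positivity
  have ht3 : ‖t‖ ≤ (2 * n * (E + 1 : ℕ) * (n * B) ^ (2 * n)) ^ (2 * E + 1) := by
    refine ht2.trans ?_
    rw [hc1, hc2]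
    have e1 : (((n * (2 * E + 1) : ℕ) : ℝ) / ((2 * n * (E + 1) : ℕ) - ((n * (2 * E + 1) : ℕ) : ℝ))) =
        ((2 * E + 1 : ℕ) : ℝ) := by
      push_cast
      have : (2 * (n : ℝ) * (E + 1) - n * (2 * E + 1)) = n := by ring
      rw [this]
      field_simp
    rw [e1, Real.rpow_natCast]
    apply pow_le_pow_left₀ (by positivity)
    push_cast
    apply mul_le_mul_of_nonneg_left _ (by positivity)
    apply max_le _ hAnorm
    exact one_le_pow₀ hnB
  let f : ℕ → ℕ → ℤ := fun i j =>
    if h : i < 2 * n ∧ j < E + 1 then t (⟨i, h.1⟩, ⟨j, h.2⟩) else 0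
  have hf : ∀ x : Fin (2 * n) × Fin (E + 1), f x.1 x.2 = t x := by
    rintro ⟨i, j⟩
    simp only [f]
    rw [dif_pos ⟨i.isLt, j.isLt⟩]
  refine ⟨f, ?_, ?_, ?_, ?_, ?_⟩
  · obtain ⟨x, hx⟩ : ∃ x, t x ≠ 0 := by
      by_contra hcon
      push Not at hcon
      exact ht0 (funext hcon)
    refine ⟨x.1, x.2, x.1.isLt, ?_, ?_⟩
    · have := x.2.isLt
      omega
    · rw [hf]; exact hx
  · intro i j
    simp only [f]
    split_ifs with h
    · refine le_trans ?_ ht3
      rw [← Int.norm_eq_abs]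
      exact norm_le_pi_norm t _
    · simp only [Int.cast_zero, abs_zero]
      positivity
  · intro i j hi
    simp only [f]
    rw [dif_neg (by omega)]
  · intro i j hj
    simp only [f]
    rw [dif_neg (by omega)]
  · -- the relation
    have hrel : ∀ k : ι, ∑ x : Fin (2 * n) × Fin (E + 1),
        Polynomial.C (t x) * Polynomial.X ^ (x.2 : ℕ) * T x.1 k = 0 := by
      intro k
      ext m
      rw [Polynomial.coeff_zero]
      by_cases hm : m < 2 * E + 1
      · have e4 := congrFun ht1 (k, ⟨m, hm⟩)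
        simp only [Matrix.mulVec, dotProduct, A, Pi.zero_apply] at e4
        rw [Polynomial.finsetSum_coeff, ← e4]
        apply Finset.sum_congr rfl
        intro x _
        rw [mul_assoc, Polynomial.coeff_C_mul, Polynomial.coeff_X_pow_mul']
        ring
      · rw [Polynomial.finsetSum_coeff]
        apply Finset.sum_eq_zero
        intro x _
        apply Polynomial.coeff_eq_zero_of_natDegree_lt
        have g1 : (Polynomial.C (t x) * Polynomial.X ^ (x.2 : ℕ) * T x.1 k).natDegree ≤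
            (x.2 : ℕ) + E := by
          refine Polynomial.natDegree_mul_le.trans ?_
          have := Polynomial.natDegree_C_mul_X_pow_le (t x) (x.2 : ℕ)
          have := hT0 x.1 k
          omega
        have := x.2.isLt
        omega
    have hsum : ∑ i ∈ range (2 * n), ∑ j ∈ range (E + 1), (f i j : ℂ) * z ^ i * θ ^ j =
        ∑ x : Fin (2 * n) × Fin (E + 1), (t x : ℂ) * z ^ (x.1 : ℕ) * θ ^ (x.2 : ℕ) := by
      rw [Fintype.sum_prod_type, ← Fin.sum_univ_eq_sum_range
        (fun i => ∑ j ∈ range (E + 1), (f i j : ℂ) * z ^ i * θ ^ j)]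
      apply Finset.sum_congr rfl
      intro i _
      rw [← Fin.sum_univ_eq_sum_range (fun j => (f i j : ℂ) * z ^ (i : ℕ) * θ ^ j)]
      apply Finset.sum_congr rfl
      intro j _
      rw [← hf]
    rw [hsum]
    have hΛm : Λ ^ (2 * n - 1) *
        ∑ x : Fin (2 * n) × Fin (E + 1), (t x : ℂ) * z ^ (x.1 : ℕ) * θ ^ (x.2 : ℕ) = 0 := by
      rw [Finset.mul_sum]
      have e2 : ∀ x : Fin (2 * n) × Fin (E + 1),
          Λ ^ (2 * n - 1) * ((t x : ℂ) * z ^ (x.1 : ℕ) * θ ^ (x.2 : ℕ)) =
          ∑ k, aeval θ (Polynomial.C (t x) * Polynomial.X ^ (x.2 : ℕ) * T x.1 k) * u k := by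
        intro x
        have hj := x.1.isLt
        have e3 : Λ ^ (2 * n - 1) = Λ ^ (2 * n - 1 - (x.1 : ℕ)) * Λ ^ (x.1 : ℕ) := by
          rw [← pow_add]; congr 1; omega
        calc Λ ^ (2 * n - 1) * ((t x : ℂ) * z ^ (x.1 : ℕ) * θ ^ (x.2 : ℕ)) =
            (t x : ℂ) * θ ^ (x.2 : ℕ) * (Λ ^ (2 * n - 1 - (x.1 : ℕ)) * (Λ * z) ^ (x.1 : ℕ)) := by
              rw [e3, mul_pow]; ring
          _ = _ := by
              rw [hT2 x.1, Finset.mul_sum]
              apply Finset.sum_congr rfl
              intro k _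
              rw [map_mul, map_mul, map_pow, Polynomial.aeval_C, Polynomial.aeval_X]
              simp
              ring
      rw [Finset.sum_congr rfl (fun x _ => e2 x), Finset.sum_comm]
      apply Finset.sum_eq_zero
      intro k _
      rw [← Finset.sum_mul, ← map_sum, hrel k, map_zero, zero_mul]
    exact (mul_eq_zero.1 hΛm).resolve_left (pow_ne_zero _ hΛ)


/-! ### the data -/

lemma aeval_ne {θ : ℂ} (hθ : Transcendental ℚ θ) {a : ℤ[X]} (ha : a ≠ 0) : aeval θ a ≠ 0 := by
  intro h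
  exact hθ ((IsFractionRing.isAlgebraic_iff ℤ ℚ ℂ).1 ⟨a, ha, h⟩)

/-- The relation of exact degree `H` satisfied by a number with `AlgT θ ξ H`. -/
lemma algT_rel {θ ξ : ℂ} {H : ℕ} (h : AlgT θ ξ H) :
    ∃ (a : ℤ[X]) (g : Fin H → ℤ[X]), a ≠ 0 ∧ a.natDegree ≤ H ∧ l1 a ≤ (H + 1) * Real.exp H ∧
      (∀ j, (g j).natDegree ≤ H) ∧ (∀ j, l1 (g j) ≤ (H + 1) * Real.exp H) ∧
      aeval θ a * ξ ^ H = ∑ j, aeval θ (g j) * ξ ^ (j : ℕ) := by
  obtain ⟨f, ⟨i1, j1, hi1, hj1, hne⟩, hf, hrel⟩ := h
  -- the coefficients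
  let F : ℕ → ℤ[X] := fun i => ∑ j ∈ range (H + 1), Polynomial.C (f i j) * Polynomial.X ^ j
  have hFc : ∀ i k, (F i).coeff k = if k < H + 1 then f i k else 0 := by
    intro i k
    simp only [F, Polynomial.finsetSum_coeff, Polynomial.coeff_C_mul, Polynomial.coeff_X_pow]
    split_ifs with hk
    · rw [Finset.sum_eq_single k]
      · simp
      · intro j _ hj
        rw [if_neg (Ne.symm hj), mul_zero]
      · intro h'; exact absurd (Finset.mem_range.2 hk) h'
    · apply Finset.sum_eq_zero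
      intro j hj
      rw [Finset.mem_range] at hj
      rw [if_neg (by omega), mul_zero]
  have hFd : ∀ i, (F i).natDegree ≤ H := by
    intro i
    rw [Polynomial.natDegree_le_iff_coeff_eq_zero]
    intro k hk
    rw [hFc, if_neg (by omega)]
  have hFl : ∀ i, l1 (F i) ≤ (H + 1) * Real.exp H := by
    intro i
    apply l1_le_of (hFd i)
    intro k
    rw [hFc]
    split_ifs
    · exact hf _ _
    · simp only [Int.cast_zero, abs_zero]; positivity
  have hFe : ∀ i, aeval θ (F i) = ∑ j ∈ range (H + 1), (f i j : ℂ) * θ ^ j := by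
    intro i
    simp only [F, map_sum, map_mul, map_pow, Polynomial.aeval_C, Polynomial.aeval_X]
    simp
  let Q : ℤ[X][X] := ∑ i ∈ range (H + 1), Polynomial.C (F i) * Polynomial.X ^ i
  have hQc : ∀ k, Q.coeff k = if k < H + 1 then F k else 0 := by
    intro k
    simp only [Q, Polynomial.finsetSum_coeff, Polynomial.coeff_C_mul, Polynomial.coeff_X_pow]
    split_ifs with hk
    · rw [Finset.sum_eq_single k]
      · simp
      · intro j _ hj
        rw [if_neg (Ne.symm hj), mul_zero]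
      · intro h'; exact absurd (Finset.mem_range.2 hk) h'
    · apply Finset.sum_eq_zero
      intro j hj
      rw [Finset.mem_range] at hj
      rw [if_neg (by omega), mul_zero]
  have hQ0 : Q ≠ 0 := by
    intro hQ
    have h1 := hQc i1
    rw [hQ, Polynomial.coeff_zero, if_pos (by omega)] at h1
    have h2 := hFc i1 j1
    rw [← h1, Polynomial.coeff_zero, if_pos (by omega)] at h2
    exact hne h2.symm
  have hQd : Q.natDegree ≤ H := by
    rw [Polynomial.natDegree_le_iff_coeff_eq_zero]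
    intro k hk
    rw [hQc, if_neg (by omega)]
  have hQe : Q.eval₂ (aeval θ : ℤ[X] →ₐ[ℤ] ℂ).toRingHom ξ = 0 := by
    rw [← hrel]
    simp only [Q, Polynomial.eval₂_finsetSum, Polynomial.eval₂_mul, Polynomial.eval₂_C,
      Polynomial.eval₂_X_pow]
    apply Finset.sum_congr rfl
    intro i _
    have : (aeval θ : ℤ[X] →ₐ[ℤ] ℂ).toRingHom (F i) = aeval θ (F i) := rfl
    rw [this, hFe, Finset.sum_mul]
    apply Finset.sum_congr rfl
    intro j _
    ring
  have hcl : ∀ j, (Q.coeff j).natDegree ≤ H ∧ l1 (Q.coeff j) ≤ (H + 1) * Real.exp H := by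
    intro j
    rw [hQc]
    split_ifs
    · exact ⟨hFd j, hFl j⟩
    · refine ⟨by simp, ?_⟩
      rw [l1_zero]; positivity
  let G : ℤ[X][X] := Q * Polynomial.X ^ (H - Q.natDegree)
  have hG : ∀ j, G.coeff j = if H - Q.natDegree ≤ j then Q.coeff (j - (H - Q.natDegree)) else 0 :=
    fun j => Polynomial.coeff_mul_X_pow' Q (H - Q.natDegree) j
  have hGb : ∀ j, (G.coeff j).natDegree ≤ H ∧ l1 (G.coeff j) ≤ (H + 1) * Real.exp H := by
    intro j
    rw [hG]
    split_ifs
    · exact hcl _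
    · refine ⟨by simp, ?_⟩
      rw [l1_zero]; positivity
  have hGH : G.coeff H = Q.leadingCoeff := by
    rw [hG, if_pos (by omega), Polynomial.leadingCoeff]
    congr 1
    omega
  have hdeg : G.natDegree ≤ H := by
    rw [Polynomial.natDegree_le_iff_coeff_eq_zero]
    intro i hi
    rw [hG]
    split_ifs
    · apply Polynomial.coeff_eq_zero_of_natDegree_lt
      omega
    · rfl
  refine ⟨G.coeff H, fun j => -G.coeff j, ?_, (hGb H).1, (hGb H).2, ?_, ?_, ?_⟩
  · rw [hGH]
    exact Polynomial.leadingCoeff_ne_zero.2 hQ0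
  · intro j
    rw [Polynomial.natDegree_neg]
    exact (hGb j).1
  · intro j
    rw [l1_neg]
    exact (hGb j).2
  · have h4 : G.eval₂ (aeval θ : ℤ[X] →ₐ[ℤ] ℂ).toRingHom ξ = 0 := by
      simp only [G, Polynomial.eval₂_mul, hQe, zero_mul]
    rw [Polynomial.eval₂_eq_sum_range' (n := H + 1) _ (by omega), Finset.sum_range_succ] at h4
    have e0 : ∀ j, (aeval θ : ℤ[X] →ₐ[ℤ] ℂ).toRingHom (G.coeff j) = aeval θ (G.coeff j) :=
      fun _ => rfl
    simp only [e0] at h4
    rw [← Fin.sum_univ_eq_sum_range (fun j => aeval θ (G.coeff j) * ξ ^ j)] at h4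
    have h5 : aeval θ (G.coeff H) * ξ ^ H = -∑ j : Fin H, aeval θ (G.coeff j) * ξ ^ (j : ℕ) := by
      linear_combination h4
    rw [h5, ← Finset.sum_neg_distrib]
    apply Finset.sum_congr rfl
    intro j _
    rw [map_neg]; ring

lemma ibt_powers {θ ξ : ℂ} {H : ℕ} (h : AlgT θ ξ H) : ∃ a : ℤ[X], a ≠ 0 ∧ a.natDegree ≤ H ∧
    l1 a ≤ (H + 1) * Real.exp H ∧
    IBT θ (fun j : Fin H => ξ ^ (j : ℕ)) ((H + 1) * Real.exp H) H (aeval θ a * ξ) := by
  classical
  obtain ⟨a, g, h1, h2, h3, h4, h5, h6⟩ := algT_rel h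
  refine ⟨a, h1, h2, h3, ?_⟩
  intro i
  by_cases hi : (i : ℕ) + 1 < H
  · refine ⟨Pi.single ⟨i + 1, hi⟩ a, ?_, ?_, ?_⟩
    · intro j
      by_cases hj : j = ⟨i + 1, hi⟩
      · subst hj; simpa using h2
      · rw [Pi.single_eq_of_ne hj]; simp
    · intro j
      by_cases hj : j = ⟨i + 1, hi⟩
      · subst hj; simpa using h3
      · rw [Pi.single_eq_of_ne hj, l1_zero]
        positivity
    · rw [Finset.sum_eq_single ⟨i + 1, hi⟩]
      · simp only [Pi.single_eq_same]
        ring
      · intro j _ hj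
        rw [Pi.single_eq_of_ne hj]; simp
      · intro h; exact absurd (Finset.mem_univ _) h
  · refine ⟨g, h4, h5, ?_⟩
    have hi' : (i : ℕ) + 1 = H := by have := i.isLt; omega
    rw [← h6]
    conv_rhs => rw [← hi', pow_succ]
    ring

/-- The vector of monomials. -/
lemma exists_u {θ : ℂ} (H : ℕ) (hH : 1 ≤ H) (B : ℝ) (hB : 0 ≤ B) : ∀ (N : ℕ) (ξ : Fin N → ℂ)
    (a : Fin N → ℤ[X]),
    (∀ k, IBT θ (fun j : Fin H => ξ k ^ (j : ℕ)) B H (aeval θ (a k) * ξ k)) →
    ∃ (ι : Type) (_ : Fintype ι) (u : ι → ℂ) (i0 : ι), u i0 = 1 ∧ Fintype.card ι = H ^ N ∧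
      ∀ k, IBT θ u B H (aeval θ (a k) * ξ k) := by
  intro N
  induction N with
  | zero =>
    intro ξ a _
    exact ⟨Unit, inferInstance, fun _ => 1, (), rfl, by simp, fun k => k.elim0⟩
  | succ N ih =>
    intro ξ a h
    obtain ⟨ι, hι, u, i0, h1, h2, h3⟩ := ih (fun k => ξ k.succ) (fun k => a k.succ)
      (fun k => h k.succ)
    refine ⟨ι × Fin H, inferInstance, fun x => u x.1 * ξ 0 ^ (x.2 : ℕ), (i0, ⟨0, hH⟩), ?_, ?_, ?_⟩
    · simp [h1]
    · rw [Fintype.card_prod, h2, Fintype.card_fin, pow_succ]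
    · intro k
      refine Fin.cases ?_ ?_ k
      · exact (h 0).tensor' u hB
      · intro k
        exact (h3 k).tensor (fun j : Fin H => ξ 0 ^ (j : ℕ)) hB

/-- monomials with a denominator -/
lemma ibt_mon {θ : ℂ} {ι : Type} [Fintype ι] [Nonempty ι] {u : ι → ℂ} {N H : ℕ} {B : ℝ}
    (hB : 1 ≤ B) {ξ : Fin N → ℂ} {a : Fin N → ℤ[X]} (ha : ∀ k, (a k).natDegree ≤ H)
    (hl : ∀ k, l1 (a k) ≤ B) (hu : ∀ k, IBT θ u B H (aeval θ (a k) * ξ k)) (m : Fin N → ℕ)
    (hm : ∀ k, m k ≤ H) (s : Finset (Fin N)) :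
    IBT θ u ((Fintype.card ι * B) ^ ((H + 2) * s.card)) (H * H * s.card)
      (∏ k ∈ s, (aeval θ (a k) ^ H * ξ k ^ m k)) := by
  classical
  have hn0 : 0 < Fintype.card ι := Fintype.card_pos
  have hnR : (1 : ℝ) ≤ Fintype.card ι := by exact_mod_cast hn0
  have hnB : (Fintype.card ι : ℝ) ≤ Fintype.card ι * B := by nlinarith
  have hnB1 : (1 : ℝ) ≤ Fintype.card ι * B := by nlinarith
  have hB0 : 0 ≤ B := by linarith
  induction s using Finset.induction_on with
  | empty =>
    rw [Finset.prod_empty, Finset.card_empty, mul_zero, mul_zero, pow_zero]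
    have := IBT.const (θ := θ) (u := u) (e := 0) (B := 1) 1 (by simp) (by rw [l1_one])
    simpa using this
  | insert k s hk ih =>
    rw [Finset.prod_insert hk, Finset.card_insert_of_notMem hk]
    have h1 : IBT θ u B H (aeval θ (a k)) := IBT.const (a k) (ha k) (hl k)
    have h2 := (h1.pow hB0 (H - m k)).mul ((hu k).pow hB0 (m k)) (by positivity) (by positivity)
    have e1 : aeval θ (a k) ^ (H - m k) * (aeval θ (a k) * ξ k) ^ m k =
        aeval θ (a k) ^ H * ξ k ^ m k := by
      rw [mul_pow, ← mul_assoc, ← pow_add, Nat.sub_add_cancel (hm k)]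
    rw [e1] at h2
    have h3 := h2.mul ih (by positivity) (by positivity)
    refine h3.mono ?_ ?_
    · have e2 : (Fintype.card ι : ℝ) * (Fintype.card ι * (Fintype.card ι * B) ^ (H - m k) *
          (Fintype.card ι * B) ^ m k) * (Fintype.card ι * B) ^ ((H + 2) * s.card) =
          (Fintype.card ι * Fintype.card ι) * (Fintype.card ι * B) ^ (H + (H + 2) * s.card) := by
        have : H + (H + 2) * s.card = (H - m k) + m k + (H + 2) * s.card := by
          rw [Nat.sub_add_cancel (hm k)]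
        rw [this, pow_add, pow_add]
        ring
      rw [e2]
      calc (Fintype.card ι * Fintype.card ι : ℝ) * (Fintype.card ι * B) ^ (H + (H + 2) * s.card)
          ≤ ((Fintype.card ι * B) * (Fintype.card ι * B)) *
            (Fintype.card ι * B) ^ (H + (H + 2) * s.card) := by
            apply mul_le_mul_of_nonneg_right _ (by positivity)
            exact mul_le_mul hnB hnB (by positivity) (by positivity)
        _ = (Fintype.card ι * B) ^ ((H + 2) * (s.card + 1)) := by
            rw [← pow_two, ← pow_add]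
            congr 1
            ring
    · have : H * (H - m k) + H * m k = H * H := by
        rw [← mul_add, Nat.sub_add_cancel (hm k)]
      rw [this]
      ring_nf
      exact le_rfl


/-! ### growth -/

lemma le_two_pow (n : ℕ) : n ≤ 2 ^ n := Nat.lt_two_pow_self.le

lemma le_pow {H : ℕ} (hH : 2 ≤ H) (N : ℕ) : N ≤ H ^ N :=
  (le_two_pow N).trans (Nat.pow_le_pow_left hH N)

lemma add_pow_le {H : ℕ} (hH : 2 ≤ H) {a b c : ℕ} (ha : a < c) (hb : b < c) :
    H ^ a + H ^ b ≤ H ^ c := by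
  obtain ⟨c, rfl⟩ : ∃ c', c = c' + 1 := ⟨c - 1, by omega⟩
  have h1 : H ^ a ≤ H ^ c := Nat.pow_le_pow_right (by omega) (by omega)
  have h2 : H ^ b ≤ H ^ c := Nat.pow_le_pow_right (by omega) (by omega)
  calc H ^ a + H ^ b ≤ H ^ c + H ^ c := Nat.add_le_add h1 h2
    _ = H ^ c * 2 := by ring
    _ ≤ H ^ c * H := Nat.mul_le_mul_left _ hH
    _ = H ^ (c + 1) := (pow_succ H c).symm

lemma le_exp_of_le {x : ℝ} {y : ℝ} (h : x ≤ y) : x ≤ Real.exp y := by
  have := Real.add_one_le_exp y
  linarith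

/-- the numerical estimates -/
lemma growth (N H d : ℕ) (hH : 2 ≤ H) (hd : d ≤ H) (hd0 : 1 ≤ d) {B M : ℝ}
    (hB : B = (H + 1) * Real.exp H)
    (hM : M = Real.exp H * (((H ^ N : ℕ) : ℝ) * B) ^ ((H + 2) * N)) (n E : ℕ)
    (hn : n = H ^ N * d) (hE : E = (2 * n - 1) * (H * H * N)) :
    2 * n ≤ H ^ (5 * N + 16) ∧ E ≤ H ^ (5 * N + 16) ∧
    (2 * n * (E + 1 : ℕ) * (n * M) ^ (2 * n)) ^ (2 * E + 1) ≤
      Real.exp ((H : ℝ) ^ (5 * N + 16)) := by
  have hH0 : 0 < H := by omega
  have hH1 : 1 ≤ H := by omega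
  have pr : ∀ {a b : ℕ}, a ≤ b → H ^ a ≤ H ^ b := fun h => Nat.pow_le_pow_right hH0 h
  have h2n : 2 * n ≤ H ^ (N + 2) := by
    rw [hn]
    calc 2 * (H ^ N * d) ≤ H * (H ^ N * H) := by gcongr
      _ = H ^ (N + 2) := by rw [pow_add]; ring
  have hn1 : n ≤ H ^ (N + 1) := by
    rw [hn, pow_succ]; gcongr
  have hn0 : 1 ≤ n := by
    rw [hn]; exact Nat.one_le_iff_ne_zero.2 (by positivity)
  have hEb : E ≤ H ^ (2 * N + 4) := by
    rw [hE]
    calc (2 * n - 1) * (H * H * N) ≤ H ^ (N + 2) * (H * H * H ^ N) := by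
          apply Nat.mul_le_mul (by omega)
          exact Nat.mul_le_mul le_rfl (le_pow hH N)
      _ = H ^ (2 * N + 4) := by rw [show 2 * N + 4 = N + 2 + 2 + N by ring, pow_add, pow_add]; ring
  refine ⟨h2n.trans (pr (by omega)), hEb.trans (pr (by omega)), ?_⟩
  -- logarithmic sizes
  have hB1 : B ≤ Real.exp ((H ^ 2 : ℕ) : ℝ) := by
    rw [hB]
    calc ((H : ℝ) + 1) * Real.exp H ≤ Real.exp H * Real.exp H := by
          apply mul_le_mul_of_nonneg_right _ (by positivity)
          exact Real.add_one_le_exp _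
      _ = Real.exp (H + H) := by rw [Real.exp_add]
      _ ≤ _ := by
          apply Real.exp_le_exp.2
          push_cast
          have : (2 : ℝ) ≤ H := by exact_mod_cast hH
          nlinarith
  have hB0 : 0 ≤ B := by rw [hB]; positivity
  have hnB : ((H ^ N : ℕ) : ℝ) * B ≤ Real.exp ((H ^ (N + 3) : ℕ) : ℝ) := by
    calc ((H ^ N : ℕ) : ℝ) * B ≤ Real.exp ((H ^ N : ℕ) : ℝ) * Real.exp ((H ^ 2 : ℕ) : ℝ) :=
          mul_le_mul (le_exp_of_le le_rfl) hB1 hB0 (by positivity)
      _ = Real.exp (((H ^ N + H ^ 2 : ℕ) : ℝ)) := by rw [← Real.exp_add]; push_cast; rfl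
      _ ≤ _ := by
          apply Real.exp_le_exp.2
          exact_mod_cast add_pow_le hH (by omega) (by omega)
  have hM1 : M ≤ Real.exp ((H ^ (2 * N + 6) : ℕ) : ℝ) := by
    rw [hM]
    calc Real.exp H * (((H ^ N : ℕ) : ℝ) * B) ^ ((H + 2) * N)
        ≤ Real.exp H * Real.exp ((H ^ (N + 3) : ℕ) : ℝ) ^ ((H + 2) * N) := by
          apply mul_le_mul_of_nonneg_left _ (by positivity)
          exact pow_le_pow_left₀ (by positivity) hnB _
      _ = Real.exp ((H + (H + 2) * N * H ^ (N + 3) : ℕ) : ℝ) := by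
          rw [← Real.exp_nat_mul, ← Real.exp_add]
          push_cast; rfl
      _ ≤ _ := by
          apply Real.exp_le_exp.2
          have e1 : (H + 2) * N * H ^ (N + 3) ≤ H ^ (2 * N + 5) := by
            calc (H + 2) * N * H ^ (N + 3) ≤ (H * H) * H ^ N * H ^ (N + 3) := by
                  apply Nat.mul_le_mul_right
                  apply Nat.mul_le_mul _ (le_pow hH N)
                  nlinarith
              _ = H ^ (2 * N + 5) := by
                  rw [show 2 * N + 5 = 2 + N + (N + 3) by ring, pow_add, pow_add]; ring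
          have e2 : H + (H + 2) * N * H ^ (N + 3) ≤ H ^ (2 * N + 6) := by
            calc H + (H + 2) * N * H ^ (N + 3) ≤ H ^ 1 + H ^ (2 * N + 5) := by
                  rw [pow_one]; omega
              _ ≤ _ := add_pow_le hH (by omega) (by omega)
          exact_mod_cast e2
  have hM0 : 0 ≤ M := by rw [hM]; positivity
  have hnM : (n : ℝ) * M ≤ Real.exp ((H ^ (2 * N + 7) : ℕ) : ℝ) := by
    calc (n : ℝ) * M ≤ Real.exp ((H ^ (N + 1) : ℕ) : ℝ) * Real.exp ((H ^ (2 * N + 6) : ℕ) : ℝ) :=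
          mul_le_mul (le_exp_of_le (by exact_mod_cast hn1)) hM1 hM0 (by positivity)
      _ = Real.exp (((H ^ (N + 1) + H ^ (2 * N + 6) : ℕ) : ℝ)) := by
          rw [← Real.exp_add]; push_cast; rfl
      _ ≤ _ := by
          apply Real.exp_le_exp.2
          exact_mod_cast add_pow_le hH (by omega) (by omega)
  have hpow : ((n : ℝ) * M) ^ (2 * n) ≤ Real.exp ((H ^ (3 * N + 9) : ℕ) : ℝ) := by
    calc ((n : ℝ) * M) ^ (2 * n) ≤ Real.exp ((H ^ (2 * N + 7) : ℕ) : ℝ) ^ (2 * n) :=
          pow_le_pow_left₀ (by positivity) hnM _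
      _ = Real.exp ((2 * n * H ^ (2 * N + 7) : ℕ) : ℝ) := by
          rw [← Real.exp_nat_mul]; push_cast; rfl
      _ ≤ _ := by
          apply Real.exp_le_exp.2
          have : 2 * n * H ^ (2 * N + 7) ≤ H ^ (3 * N + 9) := by
            calc 2 * n * H ^ (2 * N + 7) ≤ H ^ (N + 2) * H ^ (2 * N + 7) :=
                  Nat.mul_le_mul_right _ h2n
              _ = H ^ (3 * N + 9) := by
                  rw [← pow_add]
                  congr 1
                  ring
          exact_mod_cast this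
  have hfirst : (2 * n * (E + 1 : ℕ) : ℝ) ≤ Real.exp ((H ^ (3 * N + 7) : ℕ) : ℝ) := by
    apply le_exp_of_le
    have e1 : E + 1 ≤ H ^ (2 * N + 5) := by
      calc E + 1 ≤ H ^ (2 * N + 4) + H ^ 0 := by rw [pow_zero]; omega
        _ ≤ _ := add_pow_le hH (by omega) (by omega)
    have : 2 * n * (E + 1) ≤ H ^ (3 * N + 7) := by
      calc 2 * n * (E + 1) ≤ H ^ (N + 2) * H ^ (2 * N + 5) := Nat.mul_le_mul h2n e1
        _ = H ^ (3 * N + 7) := by
            rw [← pow_add]
            congr 1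
            ring
    exact_mod_cast this
  have hprod : (2 * n * (E + 1 : ℕ) * (n * M) ^ (2 * n) : ℝ) ≤
      Real.exp ((H ^ (3 * N + 10) : ℕ) : ℝ) := by
    calc (2 * n * (E + 1 : ℕ) * (n * M) ^ (2 * n) : ℝ)
        ≤ Real.exp ((H ^ (3 * N + 7) : ℕ) : ℝ) * Real.exp ((H ^ (3 * N + 9) : ℕ) : ℝ) :=
          mul_le_mul hfirst hpow (by positivity) (by positivity)
      _ = Real.exp (((H ^ (3 * N + 7) + H ^ (3 * N + 9) : ℕ) : ℝ)) := by
          rw [← Real.exp_add]; push_cast; rfl
      _ ≤ _ := by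
          apply Real.exp_le_exp.2
          exact_mod_cast add_pow_le hH (by omega) (by omega)
  calc (2 * n * (E + 1 : ℕ) * (n * M) ^ (2 * n) : ℝ) ^ (2 * E + 1)
      ≤ Real.exp ((H ^ (3 * N + 10) : ℕ) : ℝ) ^ (2 * E + 1) :=
        pow_le_pow_left₀ (by positivity) hprod _
    _ = Real.exp (((2 * E + 1) * H ^ (3 * N + 10) : ℕ) : ℝ) := by
        rw [← Real.exp_nat_mul]; push_cast; rfl
    _ ≤ _ := by
        apply Real.exp_le_exp.2
        have e1 : 2 * E + 1 ≤ H ^ (2 * N + 6) := by
          have g1 : H ^ (2 * N + 5) + H ^ 0 ≤ H ^ (2 * N + 6) :=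
            add_pow_le hH (by omega) (by omega)
          have g2 : 2 * H ^ (2 * N + 4) ≤ H ^ (2 * N + 5) := by
            calc 2 * H ^ (2 * N + 4) ≤ H * H ^ (2 * N + 4) := Nat.mul_le_mul_right _ hH
              _ = H ^ (2 * N + 5) := by
                  rw [show 2 * N + 5 = (2 * N + 4) + 1 by ring, pow_succ' H (2 * N + 4)]
          rw [pow_zero] at g1
          omega
        have : (2 * E + 1) * H ^ (3 * N + 10) ≤ H ^ (5 * N + 16) := by
          calc (2 * E + 1) * H ^ (3 * N + 10) ≤ H ^ (2 * N + 6) * H ^ (3 * N + 10) :=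
                Nat.mul_le_mul_right _ e1
            _ = H ^ (5 * N + 16) := by
                rw [← pow_add]
                congr 1
                ring
        exact_mod_cast this


end Root

open Root in
theorem specRootT : SpecRootT := by
  classical
  intro N
  refine ⟨5 * N + 16, ?_⟩
  intro θ hθ H hH ξ hξ P hPd hPc ζ hζ hy
  have hH' : (2 : ℝ) ≤ H := by exact_mod_cast hH
  have hH1 : (1 : ℝ) ≤ H := by linarith
  -- exponents
  have hexp : ∀ m ∈ P.support, ∀ o, m o ≤ H := by
    intro m hm o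
    exact ((MvPolynomial.monomial_le_degreeOf o hm).trans
      (MvPolynomial.degreeOf_le_totalDegree P o)).trans hPd
  -- the polynomial in one variable
  let p : ℂ[X] := ∑ m ∈ P.support,
    Polynomial.C (((P.coeff m : ℤ) : ℂ) * ∏ k, ξ k ^ m (some k)) * Polynomial.X ^ m none
  have hpeval : ∀ y : ℂ, MvPolynomial.aeval (fun o : Option (Fin N) => o.elim y ξ) P = p.eval y := by
    intro y
    rw [MvPolynomial.aeval_def, MvPolynomial.eval₂_eq', Polynomial.eval_finsetSum]
    apply Finset.sum_congr rfl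
    intro m _
    rw [Fintype.prod_option]
    simp only [Option.elim_none, Option.elim_some, Polynomial.eval_mul, Polynomial.eval_C,
      Polynomial.eval_pow, Polynomial.eval_X, eq_intCast]
    ring
  have hp0 : p ≠ 0 := by
    obtain ⟨y, hy⟩ := hy
    intro h
    apply hy
    rw [hpeval, h, Polynomial.eval_zero]
  have hpz : p.eval ζ = 0 := by rw [← hpeval]; exact hζ
  set d := p.natDegree with hd
  have hdH : d ≤ H := by
    apply Polynomial.natDegree_sum_le_of_forall_le
    intro m hm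
    exact (Polynomial.natDegree_C_mul_X_pow_le _ _).trans (hexp m hm none)
  have hd1 : 1 ≤ d := by
    by_contra hcon
    have h0 : p.natDegree = 0 := by omega
    rw [Polynomial.eq_C_of_natDegree_eq_zero h0] at hpz hp0
    rw [Polynomial.eval_C] at hpz
    rw [hpz, Polynomial.C_0] at hp0
    exact hp0 rfl
  have hlead : p.coeff d ≠ 0 := Polynomial.leadingCoeff_ne_zero.2 hp0
  have hcoef : ∀ i, p.coeff i = ∑ m ∈ P.support.filter (fun m => m none = i),
      ((P.coeff m : ℤ) : ℂ) * ∏ k, ξ k ^ m (some k) := by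
    intro i
    simp only [p, Polynomial.finsetSum_coeff, Polynomial.coeff_C_mul, Polynomial.coeff_X_pow]
    rw [Finset.sum_filter]
    apply Finset.sum_congr rfl
    intro m _
    by_cases h : m none = i
    · rw [if_pos h.symm, if_pos h, mul_one]
    · rw [if_neg (Ne.symm h), if_neg h, mul_zero]
  -- the vector of the monomials
  choose a ha0 ha1 ha2 ha3 using fun k => ibt_powers (hξ k)
  set B : ℝ := (H + 1) * Real.exp H with hB
  have hB1 : 1 ≤ B := by
    have : 1 ≤ Real.exp (H : ℝ) := Real.one_le_exp (by positivity)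
    rw [hB]; nlinarith
  obtain ⟨ι, hι, u, i0, hu1, hcard, hu2⟩ := exists_u H (by omega) B (by linarith) N ξ a ha3
  have : Nonempty ι := ⟨i0⟩
  let A : ℂ := ∏ k, aeval θ (a k) ^ H
  have hA0 : A ≠ 0 := Finset.prod_ne_zero_iff.2 fun k _ => pow_ne_zero _ (aeval_ne hθ (ha0 k))
  set M : ℝ := Real.exp H * (((H ^ N : ℕ) : ℝ) * B) ^ ((H + 2) * N) with hM
  have hK : 1 ≤ ((H ^ N : ℕ) : ℝ) * B := by
    have : (1 : ℝ) ≤ ((H ^ N : ℕ) : ℝ) := by
      exact_mod_cast Nat.one_le_iff_ne_zero.2 (pow_ne_zero _ (by omega))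
    nlinarith
  have hM1 : 1 ≤ M := by
    rw [hM]
    have h1 : 1 ≤ Real.exp (H : ℝ) := Real.one_le_exp (by positivity)
    have h2 : 1 ≤ (((H ^ N : ℕ) : ℝ) * B) ^ ((H + 2) * N) := one_le_pow₀ hK
    nlinarith
  have hAi : ∀ i, IBT θ u M (H * H * N) (A * p.coeff i) := by
    intro i
    have h1 : A * p.coeff i = ∑ m ∈ P.support.filter (fun m => m none = i),
        ((P.coeff m : ℤ) : ℂ) * ∏ k ∈ Finset.univ, (aeval θ (a k) ^ H * ξ k ^ m (some k)) := by
      rw [hcoef, Finset.mul_sum]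
      apply Finset.sum_congr rfl
      intro m _
      rw [Finset.prod_mul_distrib]
      simp only [A]
      ring
    rw [h1]
    refine (IBT.zsum (θ := θ) (u := u)
      (B := (Fintype.card ι * B) ^ ((H + 2) * (Finset.univ : Finset (Fin N)).card))
      (e := H * H * (Finset.univ : Finset (Fin N)).card) _ (fun m => P.coeff m)
      (fun m => ∏ k ∈ Finset.univ, (aeval θ (a k) ^ H * ξ k ^ m (some k))) ?_).mono ?_ ?_
    · intro m hm
      rw [Finset.mem_filter] at hm
      exact ibt_mon hB1 ha1 ha2 hu2 (fun k => m (some k)) (fun k => hexp m hm.1 _) _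
    · rw [Finset.card_univ, Fintype.card_fin, hcard, hM]
      apply mul_le_mul_of_nonneg_right _ (by positivity)
      refine le_trans ?_ hPc
      rw [L3.cSum, Nat.cast_sum]
      calc ∑ m ∈ P.support.filter (fun m => m none = i), |((P.coeff m : ℤ) : ℝ)|
          ≤ ∑ m ∈ P.support, |((P.coeff m : ℤ) : ℝ)| :=
            Finset.sum_le_sum_of_subset_of_nonneg (Finset.filter_subset _ _)
              (fun _ _ _ => abs_nonneg _)
        _ = ∑ m ∈ P.support, (((P.coeff m).natAbs : ℕ) : ℝ) := by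
            apply Finset.sum_congr rfl
            intro m _
            rw [← Int.cast_abs, Int.abs_eq_natAbs]; simp
        _ ≤ _ := le_rfl
    · rw [Finset.card_univ, Fintype.card_fin]
  let Λ : ℂ := A * p.coeff d
  have hΛ : Λ ≠ 0 := mul_ne_zero hA0 hlead
  let w : ι × Fin d → ℂ := fun x => u x.1 * ζ ^ (x.2 : ℕ)
  have hw1 : IBT θ w M (H * H * N) Λ :=
    (hAi d).tensor (fun j : Fin d => ζ ^ (j : ℕ)) (by linarith)
  have hw2 : IBT θ w M (H * H * N) (Λ * ζ) := by
    rintro ⟨i, j⟩
    by_cases hj : (j : ℕ) + 1 < d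
    · obtain ⟨c1, h0, h1, h2⟩ := hw1 (i, ⟨j + 1, hj⟩)
      refine ⟨c1, h0, h1, ?_⟩
      rw [← h2]
      simp only [w]
      rw [pow_succ]; ring
    · have hj' : (j : ℕ) + 1 = d := by have := j.isLt; omega
      -- `Λ ζ ^ d = - ∑ A p_l ζ ^ l`
      choose c1 h0 h1 h2 using fun l : Fin d => hAi l i
      refine ⟨fun x => -c1 x.2 x.1, ?_, ?_, ?_⟩
      · rintro ⟨i', l⟩
        rw [Polynomial.natDegree_neg]
        exact h0 l i'
      · rintro ⟨i', l⟩
        rw [l1_neg]
        exact h1 l i'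
      · have e1 : p.coeff d * ζ ^ d = -∑ l : Fin d, p.coeff l * ζ ^ (l : ℕ) := by
          have h3 := hpz
          rw [Polynomial.eval_eq_sum_range, ← hd, Finset.sum_range_succ,
            ← Fin.sum_univ_eq_sum_range (fun l => p.coeff l * ζ ^ l)] at h3
          linear_combination h3
        have e0 : ζ ^ d = ζ ^ (j : ℕ) * ζ := by rw [← pow_succ, hj']
        calc Λ * ζ * w (i, j) = A * (p.coeff d * ζ ^ d) * u i := by
              rw [e0]
              simp only [w, Λ]
              ring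
          _ = -∑ l : Fin d, (A * p.coeff l * u i) * ζ ^ (l : ℕ) := by
              rw [e1, mul_neg, neg_mul, Finset.mul_sum, Finset.sum_mul]
              congr 1
              apply Finset.sum_congr rfl
              intro l _
              ring
          _ = _ := by
              rw [Fintype.sum_prod_type, Finset.sum_comm, ← Finset.sum_neg_distrib]
              apply Finset.sum_congr rfl
              intro l _
              rw [h2 l, Finset.sum_mul, ← Finset.sum_neg_distrib]
              apply Finset.sum_congr rfl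
              intro i' _
              simp only [w]
              rw [map_neg]
              ring
  have hw0 : w (i0, ⟨0, hd1⟩) = 1 := by simp [w, hu1]
  obtain ⟨f, ⟨i1, j1, hi1, hj1, hne⟩, hf1, hf2, hf3, hf4⟩ :=
    final w (i0, ⟨0, hd1⟩) hw0 hΛ hM1 hw1 hw2
  have hcard2 : Fintype.card (ι × Fin d) = H ^ N * d := by
    rw [Fintype.card_prod, hcard, Fintype.card_fin]
  rw [hcard2] at hi1 hj1 hf1 hf2 hf3 hf4
  obtain ⟨g1, g2, g3⟩ := growth N H d hH hdH hd1 hB hM (H ^ N * d) _ rfl rfl
  refine ⟨f, ⟨i1, j1, by omega, by omega, hne⟩, ?_, ?_⟩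
  · intro i j
    refine (hf1 i j).trans ?_
    push_cast at g3 ⊢
    exact g3
  · rw [← hf4]
    symm
    calc ∑ i ∈ range (2 * (H ^ N * d)), ∑ j ∈ range ((2 * (H ^ N * d) - 1) * (H * H * N) + 1),
          (f i j : ℂ) * ζ ^ i * θ ^ j
        = ∑ i ∈ range (2 * (H ^ N * d)), ∑ j ∈ range (H ^ (5 * N + 16) + 1),
          (f i j : ℂ) * ζ ^ i * θ ^ j := by
          apply Finset.sum_congr rfl
          intro i _
          apply Finset.sum_subset (Finset.range_mono (by omega))
          intro j _ hj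
          rw [Finset.mem_range, not_lt] at hj
          rw [hf3 i j (by omega)]
          simp
      _ = _ := by
          apply Finset.sum_subset (Finset.range_mono (by omega))
          intro i _ hi
          rw [Finset.mem_range, not_lt] at hi
          apply Finset.sum_eq_zero
          intro j _
          rw [hf2 i j hi]
          simp

end Pool.Agent.Lib.MP_47914d_nt.Hk
end

section
/-!
MP_47914d_nt, Hecke orbits: the modules put together.
-/
set_option autoImplicit false

namespace Pool.Agent.Lib.MP_47914d_nt.Hk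

theorem main_all : SpecMain :=
  specMain specRootT (specLiouT specRootT) specModP specCMB specMeas1

end Pool.Agent.Lib.MP_47914d_nt.Hk
end
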