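import Pool.Agent.Lib.MP_47914d_nt.Sn.All

/-!
The modular Schanuel conjecture near Hecke orbits (MP_47914d_nt): definitions and module
specifications.
-/

set_option autoImplicit false

open Complex Filter Topology Polynomial Finset

namespace Pool.Agent.Lib.MP_47914d_nt.Hk

/-- `x` is a zero of a nonzero polynomial of degree at most `D`, whose coefficients are values at
`θ` of integral polynomials of degree at most `D` with coefficients of absolute value at most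
`exp D`. -/
def AlgT (θ x : ℂ) (D : ℕ) : Prop :=
  ∃ f : ℕ → ℕ → ℤ, (∃ i j, i ≤ D ∧ j ≤ D ∧ f i j ≠ 0) ∧ (∀ i j, |(f i j : ℝ)| ≤ Real.exp D) ∧
    ∑ i ∈ range (D + 1), ∑ j ∈ range (D + 1), (f i j : ℂ) * x ^ i * θ ^ j = 0

/-- A transcendence measure. -/
def Meas (θ : ℂ) : Prop :=
  ∃ c : ℕ, ∀ D : ℕ, 2 ≤ D → ∀ g : ℤ[X], g ≠ 0 → g.natDegree ≤ D →
    (∀ i, |(g.coeff i : ℝ)| ≤ Real.exp D) → Real.exp (-(D : ℝ) ^ c) ≤ ‖aeval θ g‖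

/-- ROOTT: zeros of polynomials with coefficients of bounded size, over `ℚ(θ)`; uniform in the
polynomial. -/
def SpecRootT : Prop :=
  ∀ N : ℕ, ∃ c : ℕ, ∀ θ : ℂ, Transcendental ℚ θ → ∀ H : ℕ, 2 ≤ H → ∀ ξ : Fin N → ℂ,
    (∀ i, AlgT θ (ξ i) H) → ∀ P : MvPolynomial (Option (Fin N)) ℤ, P.totalDegree ≤ H →
      (L3.cSum P : ℝ) ≤ Real.exp H → ∀ ζ : ℂ,
      MvPolynomial.aeval (fun o : Option (Fin N) => o.elim ζ ξ) P = 0 →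
      (∃ y : ℂ, MvPolynomial.aeval (fun o : Option (Fin N) => o.elim y ξ) P ≠ 0) →
      AlgT θ ζ (H ^ c)

/-- LIOUT: Liouville inequality over a field `ℚ(θ)` with a transcendence measure. -/
def SpecLiouT : Prop :=
  ∀ θ : ℂ, Transcendental ℚ θ → Meas θ → ∀ (N : ℕ) (P : MvPolynomial (Fin N) ℤ), ∃ c : ℕ,
    ∀ H : ℕ, 2 ≤ H → ∀ ξ : Fin N → ℂ, (∀ i, AlgT θ (ξ i) H) →
      MvPolynomial.aeval ξ P = 0 ∨ Real.exp (-(H : ℝ) ^ c) ≤ ‖MvPolynomial.aeval ξ P‖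

/-- MODP: modular polynomials of bounded size. -/
def SpecModP : Prop :=
  ∃ c : ℕ, ∀ H : ℕ, 2 ≤ H → ∀ x y z w : ℤ, |x| ≤ H → |y| ≤ H → |z| ≤ H → |w| ≤ H →
    0 < x * w - y * z →
    ∃ P : MvPolynomial (Fin 2) ℤ, P.totalDegree ≤ H ^ c ∧
      (L3.cSum P : ℝ) ≤ Real.exp ((H : ℝ) ^ c) ∧
      (∀ v : ℂ, ∃ u : ℂ, MvPolynomial.aeval ![u, v] P ≠ 0) ∧
      ∀ τ : ℂ, 0 < τ.im →
        MvPolynomial.aeval ![Jc (((x : ℂ) * τ + y) / ((z : ℂ) * τ + w)), Jc τ] P = 0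

/-- CMB: CM points and singular moduli, polynomial size. -/
def SpecCMB : Prop :=
  ∃ c : ℕ, ∀ H : ℕ, 2 ≤ H → ∀ κ : ℂ, 0 < κ.im → QuadHeight κ H →
    Sn.AlgB κ (H ^ c) ∧ Sn.AlgB (Jc κ) (H ^ c)

/-- MEAS1: a transcendence measure for `ℚ(α, j(α))` when the transcendence degree is one. -/
def SpecMeas1 : Prop :=
  ∀ α : ℂ, 0 < α.im →
    (¬ ∃ a b c : ℤ, (a ≠ 0 ∨ b ≠ 0 ∨ c ≠ 0) ∧ (a : ℂ) * α ^ 2 + (b : ℂ) * α + (c : ℂ) = 0) →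
    ¬ AlgebraicIndependent ℚ ![α, Jc α] →
    ∃ θ : ℂ, (θ = α ∨ θ = Jc α) ∧ Transcendental ℚ θ ∧ Meas θ ∧
      ∃ D : ℕ, AlgT θ α D ∧ AlgT θ (Jc α) D

/-- `κ` is a CM point of height at most `H`, or a point `(a α + b) / (c α + d)` with integers
`a, b, c, d` of absolute value at most `H` and positive determinant. -/
def SpecialPt (α κ : ℂ) (H : ℕ) : Prop :=
  QuadHeight κ H ∨ ∃ a b c d : ℤ, |a| ≤ H ∧ |b| ≤ H ∧ |c| ≤ H ∧ |d| ≤ H ∧ 0 < a * d - b * c ∧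
    κ * ((c : ℂ) * α + (d : ℂ)) = (a : ℂ) * α + (b : ℂ)

/-- ASM: the main theorem. -/
def SpecMain : Prop :=
  ∀ (n : ℕ) (α : ℂ) (z : Fin n → ℂ), 0 < n → 0 < α.im → (∀ i, 0 < (z i).im) →
    (¬ ∃ a b c : ℤ, (a ≠ 0 ∨ b ≠ 0 ∨ c ≠ 0) ∧ (a : ℂ) * α ^ 2 + (b : ℂ) * α + (c : ℂ) = 0) →
    (∀ i, ¬ ∃ a b c : ℤ, (a ≠ 0 ∨ b ≠ 0 ∨ c ≠ 0) ∧
      (a : ℂ) * z i ^ 2 + (b : ℂ) * z i + (c : ℂ) = 0) →
    (∀ i, ¬ ∃ a b c d : ℚ, 0 < a * d - b * c ∧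
      z i * ((c : ℂ) * α + (d : ℂ)) = (a : ℂ) * α + (b : ℂ)) →
    (∀ i k, i ≠ k → ¬ ∃ a b c d : ℚ, 0 < a * d - b * c ∧
      z k * ((c : ℂ) * z i + (d : ℂ)) = (a : ℂ) * z i + (b : ℂ)) →
    ¬ AlgebraicIndependent ℚ ![α, Jc α] →
    (∀ A H₀ : ℕ, ∃ H : ℕ, H₀ ≤ H ∧ ∃ κ : Fin n → ℂ, ∀ i, SpecialPt α (κ i) H ∧
      ‖κ i - z i‖ < Real.exp (-(H : ℝ) ^ A)) →
    ∃ θ : ℂ, (θ = α ∨ θ = Jc α) ∧ ∃ w : Fin (n + 1) → Fin n ⊕ Fin n,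
      AlgebraicIndependent ℚ (fun o : Option (Fin (n + 1)) => o.elim θ (fun m => ptf z (w m)))

end Pool.Agent.Lib.MP_47914d_nt.Hk
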